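import Pool.Agent.Work.MP_6d7bb4_helper94.Fin
import Pool.Agent.Work.MP_6d7bb4_helper94.Conj

/-! # MP_6d7bb4: pointwise stabilisers of balls and their `O_p` (helper65) -/

set_option autoImplicit false
set_option linter.unusedSectionVars false

namespace Pool.Agent.Work.MP_6d7bb4.h65

open MulAction Pool.Agent.Work.MP_6d7bb4.helper94
open scoped commutatorElement

section ball
variable {V G : Type*} [Group G] [MulAction G V] {Γ : SimpleGraph V} {d : ℕ}

/-- pointwise stabiliser of the ball of radius `s` -/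
def Wb (Γ : SimpleGraph V) (s : ℕ) (x : V) : Subgroup G where
  carrier := {g | ∀ v, Γ.dist x v ≤ s → g • v = v}
  one_mem' := fun v _ => one_smul _ _
  mul_mem' := by
    intro a b ha hb v hv
    rw [mul_smul, hb v hv, ha v hv]
  inv_mem' := by
    intro a ha v hv
    rw [inv_smul_eq_iff, ha v hv]

theorem mem_Wb {s : ℕ} {x : V} {g : G} :
    g ∈ (Wb Γ s x : Subgroup G) ↔ ∀ v, Γ.dist x v ≤ s → g • v = v := Iff.rfl

theorem Wb_le_st (s : ℕ) (x : V) : (Wb Γ s x : Subgroup G) ≤ stabilizer G x := by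
  intro g hg
  exact hg x (by rw [SimpleGraph.dist_self]; omega)

theorem Wb_le_st' {s : ℕ} (hs : 1 ≤ s) {x y : V} (hxy : Γ.Adj x y) :
    (Wb Γ s x : Subgroup G) ≤ stabilizer G y := by
  intro g hg
  exact hg y (by rw [SimpleGraph.dist_eq_one_iff_adj.mpr hxy]; exact hs)

theorem Wb_anti {s t : ℕ} (h : s ≤ t) (x : V) : (Wb Γ t x : Subgroup G) ≤ Wb Γ s x :=
  fun _ hg v hv => hg v (hv.trans h)

theorem Wb_dist (hc : Γ.Connected) {s k : ℕ} {x y : V} (hd : Γ.dist x y ≤ k) :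
    (Wb Γ (s + k) x : Subgroup G) ≤ Wb Γ s y := by
  intro g hg v hv
  refine hg v ?_
  have := hc.dist_triangle (u := x) (v := y) (w := v)
  omega

theorem Wb_cj (h : Loc G Γ d) (s : ℕ) (g : G) (x : V) :
    (Wb Γ s (g • x) : Subgroup G) = cj g (Wb Γ s x) := by
  ext k
  rw [mem_cj, mem_Wb, mem_Wb]
  constructor
  · intro h1 v hv
    rw [mul_smul, mul_smul, h1 (g • v) (by rw [dist_smul h]; exact hv), inv_smul_smul]
  · intro h1 v hv
    have h2 := h1 (g⁻¹ • v) (by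
      rw [← dist_smul h g, smul_inv_smul]
      exact hv)
    rw [mul_smul, mul_smul, smul_inv_smul, inv_smul_eq_iff, smul_inv_smul] at h2
    exact h2

theorem finWb (h : Loc G Γ d) (s : ℕ) (x : V) : Finite (Wb Γ s x : Subgroup G) :=
  h.fin_le (Wb_le_st s x)

/-- the largest normal `p`-subgroup of the pointwise stabiliser of a ball -/
def Nb (Γ : SimpleGraph V) (p s : ℕ) (x : V) : Subgroup G := O p (Wb Γ s x)

variable {p : ℕ}

theorem Nb_le (s : ℕ) (x : V) : (Nb Γ p s x : Subgroup G) ≤ Wb Γ s x := O_le _ _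

theorem Nb_le_st (s : ℕ) (x : V) : (Nb Γ p s x : Subgroup G) ≤ stabilizer G x :=
  (O_le _ _).trans (Wb_le_st s x)

theorem Nb_cj (h : Loc G Γ d) (s : ℕ) (g : G) (x : V) :
    (Nb Γ p s (g • x) : Subgroup G) = cj g (Nb Γ p s x) := by
  unfold Nb
  rw [Wb_cj h, O_cj]

theorem nm_Nb (h : Loc G Γ d) (s : ℕ) (x : V) :
    Nm (stabilizer G x) (Nb Γ p s x : Subgroup G) :=
  nm_of_equiv (fun g x => Nb_cj h s g x) x

variable [Fact p.Prime]

theorem Nb_isP (h : Loc G Γ d) (s : ℕ) (x : V) : IsPGroup p (Nb Γ p s x : Subgroup G) :=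
  have := finWb h s x
  O_isP _

theorem le_Nb {s : ℕ} {x : V} {N : Subgroup G} (h1 : N ≤ Wb Γ s x)
    (h2 : Nm (Wb Γ s x : Subgroup G) N) (h3 : IsPGroup p N) : N ≤ Nb Γ p s x :=
  le_O h1 h2 h3

theorem Nb_anti (h : Loc G Γ d) {s t : ℕ} (hst : s ≤ t) (x : V) :
    (Nb Γ p t x : Subgroup G) ≤ Nb Γ p s x :=
  le_Nb ((Nb_le t x).trans (Wb_anti hst x)) ((nm_Nb h t x).mono (Wb_le_st s x)) (Nb_isP h t x)

theorem Nb_adj (h : Loc G Γ d) {s : ℕ} (hs : 1 ≤ s) {x y : V} (hxy : Γ.Adj x y) :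
    (Nb Γ p (s + 1) x : Subgroup G) ≤ Nb Γ p s y := by
  refine le_Nb ((Nb_le _ x).trans (Wb_dist h.conn ?_))
    ((nm_Nb h _ x).mono (Wb_le_st' hs hxy.symm)) (Nb_isP h _ x)
  rw [SimpleGraph.dist_eq_one_iff_adj.mpr hxy]

theorem Nb_dist (h : Loc G Γ d) {s : ℕ} (hs : 1 ≤ s) (k : ℕ) :
    ∀ {x y : V}, Γ.dist x y ≤ k → (Nb Γ p (s + k) x : Subgroup G) ≤ Nb Γ p s y := by
  induction k with
  | zero =>
    intro x y hd
    have h1 : x = y := by
      rw [← h.conn.dist_eq_zero_iff]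
      omega
    rw [h1]
    exact le_refl _
  | succ k ih =>
    intro x y hd
    by_cases hxy : x = y
    · rw [hxy]
      exact Nb_anti h (by omega) y
    · obtain ⟨i, hi, h1⟩ := Tr.closer_exists h.conn hxy
      have h2 : (Nb Γ p (s + k) i : Subgroup G) ≤ Nb Γ p s y := ih (by omega)
      exact (Nb_adj h (s := s + k) (by omega) hi).trans h2

/-- every vertex is a translate of `x` -/
theorem vtr (h : Loc G Γ d) {x y : V} (hxy : Γ.Adj x y) (v : V) : ∃ g : G, g • x = v := by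
  refine conn_ind h.conn {v | ∃ g : G, g • x = v} (x := x) ⟨1, one_smul _ _⟩ ?_ v
  rintro _ ⟨m, rfl⟩ w hw
  obtain ⟨σ, h1, h2⟩ := h.inv hxy
  have h3 : Γ.Adj x (m⁻¹ • w) := by
    rw [← h.adj_iff m, smul_inv_smul]
    exact hw
  obtain ⟨g, hg1, hg2⟩ := h.arc x y x (m⁻¹ • w) hxy h3
  refine ⟨m * g * σ, ?_⟩
  rw [mul_smul, mul_smul, h1, hg2, smul_inv_smul]

end ball

end Pool.Agent.Work.MP_6d7bb4.h65
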