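import Pool.Agent.Work.MP_6d7bb4_h65.Fam

/-! # MP_6d7bb4: general lemmas for the bound on centres (helper65) -/

set_option autoImplicit false
set_option linter.unusedSectionVars false

namespace Pool.Agent.Work.MP_6d7bb4.h65

open MulAction Pool.Agent.Work.MP_6d7bb4.helper94

section grp

theorem compl_add {p : ℕ} [Fact p.Prime] {M : Type*} [AddCommGroup M] [Module (ZMod p) M] :
    ComplementedLattice (AddSubgroup M) :=
  (AddSubgroup.toZModSubmodule p (M := M)).complementedLattice_iff.mpr inferInstance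

theorem compl_type {A : Type*} [CommGroup A] {p : ℕ} [Fact p.Prime] (hA : ∀ a : A, a ^ p = 1)
    (C : Subgroup A) : ∃ C' : Subgroup A, IsCompl C C' := by
  have h : ∀ a : Additive A, p • a = 0 := fun a => hA a.toMul
  have h0 : ComplementedLattice (AddSubgroup (Additive A)) := by
    let _ : Module (ZMod p) (Additive A) := AddCommGroup.zmodModule h
    exact compl_add (p := p)
  have : ComplementedLattice (Subgroup A) :=
    (Subgroup.toAddSubgroup (G := A)).complementedLattice_iff.mpr h0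
  exact exists_isCompl C

variable {G : Type*} [Group G]

/-- complements in elementary abelian groups -/
theorem compl_sub {p : ℕ} [Fact p.Prime] {A : Subgroup G} (C : Subgroup G)
    (h1 : ∀ a ∈ A, a ^ p = 1) (h2 : ∀ a ∈ A, ∀ b ∈ A, a * b = b * a) :
    ∃ C' : Subgroup G, C' ≤ A ∧ C' ⊓ C = ⊥ ∧ ∀ a ∈ A, ∃ c' ∈ C', ∃ c ∈ C, a = c' * c := by
  let _ : CommGroup A :=
    { (inferInstance : Group A) with
      mul_comm := fun a b => Subtype.ext (h2 a.1 a.2 b.1 b.2) }
  obtain ⟨D, hD⟩ := compl_type (p := p) (A := A) (fun a => Subtype.ext (h1 a.1 a.2))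
    (C.subgroupOf A)
  refine ⟨D.map A.subtype, ?_, ?_, ?_⟩
  · rintro _ ⟨a, _, rfl⟩
    exact a.2
  · rw [eq_bot_iff]
    rintro _ ⟨⟨a, ha, rfl⟩, hc⟩
    have h3 : a ∈ C.subgroupOf A ⊓ D := ⟨Subgroup.mem_subgroupOf.mpr hc, ha⟩
    rw [hD.inf_eq_bot, Subgroup.mem_bot] at h3
    rw [Subgroup.mem_bot, h3]
    rfl
  · intro a ha
    have h3 : (⟨a, ha⟩ : A) ∈ C.subgroupOf A ⊔ D := by
      rw [hD.sup_eq_top]
      exact Subgroup.mem_top _
    obtain ⟨c, hc, d, hd, hcd⟩ := Subgroup.mem_sup.mp h3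
    refine ⟨d.1, ⟨d, hd, rfl⟩, c.1, Subgroup.mem_subgroupOf.mp hc, ?_⟩
    have h4 : c.1 * d.1 = a := congrArg Subtype.val hcd
    rw [← h4]
    exact h2 _ c.2 _ d.2

theorem relIndex_le_cover {A B C : Subgroup G} [Finite C] (f : C → A)
    (h : ∀ a ∈ A, ∃ c : C, (f c : G)⁻¹ * a ∈ B) : B.relIndex A ≤ Nat.card C := by
  refine Nat.card_le_card_of_surjective (fun c : C => (QuotientGroup.mk (f c) : A ⧸ B.subgroupOf A)) ?_
  intro q
  obtain ⟨a, rfl⟩ := QuotientGroup.mk_surjective q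
  obtain ⟨c, hc⟩ := h a.1 a.2
  refine ⟨c, ?_⟩
  show (QuotientGroup.mk (f c) : A ⧸ B.subgroupOf A) = QuotientGroup.mk a
  rw [QuotientGroup.eq, Subgroup.mem_subgroupOf]
  exact hc

/-- the fixed points of a `p`-group determine the size -/
theorem fixcard {p : ℕ} [Fact p.Prime] {A C P D : Subgroup G} [Finite P] (hP : IsPGroup p P)
    (hAP : A ≤ P) (hnm : Nm P A) (h1 : ∀ a ∈ A, a ^ p = 1)
    (h2 : ∀ a ∈ A, ∀ b ∈ A, a * b = b * a) (hCA : C ≤ A)
    (hC : ∀ z ∈ A, (∀ q ∈ P, q * z = z * q) → z ∈ C)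
    (hD : ∀ q ∈ D, ∀ a ∈ A, q * a = a * q) : Nat.card A ≤ Nat.card C ^ D.relIndex P := by
  classical
  obtain ⟨C', hC'A, hC'C, hcov⟩ := compl_sub C h1 h2
  have hfA : Finite A := Finite.of_injective _ (Subgroup.inclusion_injective hAP)
  have hfC : Finite C := Finite.of_injective _ (Subgroup.inclusion_injective hCA)
  have hidx : ∀ g ∈ P, (cj g C').relIndex A ≤ Nat.card C := by
    intro g hg
    refine relIndex_le_cover (fun c => ⟨g * c.1 * g⁻¹, hnm g hg _ (hCA c.2)⟩) ?_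
    intro a ha
    have h3 := hnm g⁻¹ (P.inv_mem hg) a ha
    rw [inv_inv] at h3
    obtain ⟨c', hc', c, hc, he⟩ := hcov _ h3
    refine ⟨⟨c, hc⟩, ?_⟩
    rw [mem_cj]
    have h4 : g⁻¹ * ((g * c * g⁻¹)⁻¹ * a) * g = c⁻¹ * (g⁻¹ * a * g) := by group
    have h5 : c⁻¹ * (c' * c) = c' := by
      rw [h2 c' (hC'A hc') c (hCA hc)]
      group
    show g⁻¹ * ((g * c * g⁻¹)⁻¹ * a) * g ∈ C'
    rw [h4, he, h5]
    exact hc'
  let ι : Type _ := P ⧸ D.subgroupOf P
  have : Fintype ι := Fintype.ofFinite ι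
  obtain ⟨f, hf⟩ : ∃ f : ι → Subgroup G, f = fun i => cj (i.out.1) C' := ⟨_, rfl⟩
  -- representatives
  have hrep : ∀ r ∈ P, ∀ w ∈ A, (∀ i, w ∈ f i) → r⁻¹ * w * r ∈ C' := by
    intro r hr w hw hwf
    have h3 := hwf (QuotientGroup.mk (⟨r, hr⟩ : P))
    rw [hf] at h3
    have h4 := mem_cj.mp h3
    obtain ⟨t, ht⟩ : ∃ t : P, t = (QuotientGroup.mk (⟨r, hr⟩ : P) : ι).out := ⟨_, rfl⟩
    have h5 : (QuotientGroup.mk t : ι) = QuotientGroup.mk ⟨r, hr⟩ := by
      rw [ht]
      exact QuotientGroup.out_eq' _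
    rw [QuotientGroup.eq, Subgroup.mem_subgroupOf] at h5
    have h6 : t.1⁻¹ * r ∈ D := h5
    rw [← ht] at h4
    have h7 : t.1⁻¹ * w * t.1 ∈ A := by
      have := hnm t.1⁻¹ (P.inv_mem t.2) w hw
      rwa [inv_inv] at this
    have h8 := hD _ (D.inv_mem h6) _ h7
    have h9 : r⁻¹ * w * r = (t.1⁻¹ * r)⁻¹ * (t.1⁻¹ * w * t.1) * (t.1⁻¹ * r) := by group
    rw [h9, h8, inv_mul_cancel_right]
    exact h4
  obtain ⟨W, hW⟩ : ∃ W : Subgroup G, W = (⨅ i, f i) ⊓ A := ⟨_, rfl⟩
  have hWm : ∀ w, w ∈ W ↔ w ∈ A ∧ ∀ i, w ∈ f i := by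
    intro w
    rw [hW, Subgroup.mem_inf, Subgroup.mem_iInf, and_comm]
  have hWbot : W = ⊥ := by
    by_contra hne
    have hWA : W ≤ A := fun w hw => ((hWm w).mp hw).1
    obtain ⟨z, hz, hz1, -, hzc⟩ := exists_central hP (hWA.trans hAP) hne (by
      intro q hq w hw
      rw [hWm] at hw ⊢
      refine ⟨hnm q hq w hw.1, fun i => ?_⟩
      rw [hf]
      show q * w * q⁻¹ ∈ cj (i.out.1) C'
      rw [mem_cj]
      have h3 := hrep (q⁻¹ * i.out.1) (P.mul_mem (P.inv_mem hq) i.out.2) w hw.1 hw.2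
      have h4 : (i.out.1)⁻¹ * (q * w * q⁻¹) * i.out.1 =
          (q⁻¹ * i.out.1)⁻¹ * w * (q⁻¹ * i.out.1) := by group
      rw [h4]
      exact h3)
    obtain ⟨h3, h4⟩ := (hWm z).mp hz
    have h5 := hrep 1 P.one_mem z h3 h4
    have h6 : (1 : G)⁻¹ * z * 1 = z := by group
    rw [h6] at h5
    have h7 : z ∈ C' ⊓ C := ⟨h5, hC z h3 hzc⟩
    rw [hC'C, Subgroup.mem_bot] at h7
    exact hz1 h7
  have h3 : Nat.card A = (⨅ i, f i).relIndex A := by
    rw [← Subgroup.inf_relIndex_right, ← hW, hWbot, Subgroup.relIndex_bot_left]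
  rw [h3]
  refine (Subgroup.relIndex_iInf_le _).trans ?_
  refine (Finset.prod_le_pow_card _ _ (Nat.card C) ?_).trans ?_
  · intro i _
    rw [hf]
    exact hidx _ i.out.2
  · rw [Finset.card_univ, ← Nat.card_eq_fintype_card]
    exact le_refl _

end grp

section ball
variable {V G : Type*} [Group G] [MulAction G V] {Γ : SimpleGraph V} {d : ℕ}

theorem ball_fin (h : Loc G Γ d) (w : V) (s : ℕ) :
    ∃ S : Finset V, (∀ v, Γ.dist w v ≤ s → v ∈ S) ∧ S.card ≤ (d + 1) ^ s := by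
  classical
  induction s with
  | zero =>
    refine ⟨{w}, ?_, by simp⟩
    intro v hv
    rw [Finset.mem_singleton]
    exact ((h.conn.dist_eq_zero_iff).mp (Nat.le_zero.mp hv)).symm
  | succ s ih =>
    obtain ⟨S, hS, hc⟩ := ih
    have hnb : ∀ u : V, ∃ N : Finset V, (∀ v, Γ.Adj u v → v ∈ N) ∧ N.card ≤ d := by
      intro u
      have := h.nfin u
      have := Fintype.ofFinite {y // Γ.Adj u y}
      refine ⟨(Finset.univ : Finset {y // Γ.Adj u y}).image Subtype.val, ?_, ?_⟩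
      · intro v hv
        exact Finset.mem_image.mpr ⟨⟨v, hv⟩, Finset.mem_univ _, rfl⟩
      · refine Finset.card_image_le.trans ?_
        rw [Finset.card_univ, ← Nat.card_eq_fintype_card]
        exact h.ncard u
    choose N hN hNc using hnb
    refine ⟨S.biUnion (fun u => insert u (N u)), ?_, ?_⟩
    · intro v hv
      rw [Finset.mem_biUnion]
      by_cases hvw : w = v
      · exact ⟨w, hS w (by rw [SimpleGraph.dist_self]; omega), by
          rw [← hvw]
          exact Finset.mem_insert_self _ _⟩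
      · obtain ⟨i, hi, hd⟩ := Tr.closer_exists h.conn (Ne.symm hvw)
        refine ⟨i, hS i ?_, Finset.mem_insert_of_mem (hN i v hi.symm)⟩
        rw [SimpleGraph.dist_comm]
        rw [SimpleGraph.dist_comm (u := v)] at hd
        omega
    · refine (Finset.card_biUnion_le_card_mul _ _ (d + 1) ?_).trans ?_
      · intro u _
        exact (Finset.card_insert_le _ _).trans (Nat.succ_le_succ (hNc u))
      · rw [pow_succ]
        exact Nat.mul_le_mul_right _ hc

/-- bound for the index of a ball stabiliser -/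
def io (d s : ℕ) : ℕ := ((d + 1) ^ s) ^ ((d + 1) ^ s)

theorem io_pos (d s : ℕ) : 0 < io d s := Nat.pow_pos (Nat.pow_pos (Nat.succ_pos d))

theorem idx (h : Loc G Γ d) {w : V} {L : Subgroup G} (hL : L ≤ stabilizer G w) (s : ℕ) :
    (Wb Γ s w : Subgroup G).relIndex L ≤ io d s := by
  classical
  obtain ⟨S, hS, hc⟩ := ball_fin h w s
  let X : Type _ := {v // Γ.dist w v ≤ s}
  have hfX : Finite X := Finite.of_injective (fun x : X => (⟨x.1, hS x.1 x.2⟩ : S)) (by
    intro a b hab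
    exact Subtype.ext (congrArg (fun z : S => z.1) hab))
  have hcX : Nat.card X ≤ (d + 1) ^ s := by
    refine (Nat.card_le_card_of_injective (fun x : X => (⟨x.1, hS x.1 x.2⟩ : S)) (by
      intro a b hab
      exact Subtype.ext (congrArg (fun z : S => z.1) hab))).trans ?_
    rw [Nat.card_eq_fintype_card, Fintype.card_coe]
    exact hc
  let φ : L → (X → X) := fun g v => ⟨g.1 • v.1, by
    have h1 := dist_smul h g.1 w v.1
    rw [mem_stabilizer_iff.mp (hL g.2)] at h1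
    rw [h1]
    exact v.2⟩
  have hinj : Function.Injective
      (fun q : L ⧸ (Wb Γ s w : Subgroup G).subgroupOf L => φ q.out) := by
    intro q q' hq
    have h1 : φ q.out = φ q'.out := hq
    rw [← QuotientGroup.out_eq' q, ← QuotientGroup.out_eq' q', QuotientGroup.eq,
      Subgroup.mem_subgroupOf]
    intro v hv
    have h2 := congrArg Subtype.val (congrFun h1 ⟨v, hv⟩)
    have h3 : (q.out : L).1 • v = (q'.out : L).1 • v := h2
    show ((q.out : L).1⁻¹ * (q'.out : L).1) • v = v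
    rw [mul_smul, ← h3, inv_smul_smul]
  have h1 : (Wb Γ s w : Subgroup G).relIndex L ≤ Nat.card (X → X) :=
    Nat.card_le_card_of_injective _ hinj
  refine h1.trans ?_
  rw [Nat.card_fun]
  have hpos : 0 < (d + 1) ^ s := Nat.pow_pos (Nat.succ_pos d)
  exact (Nat.pow_le_pow_left hcX _).trans (Nat.pow_le_pow_right hpos hcX)

end ball

end Pool.Agent.Work.MP_6d7bb4.h65
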