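import Pool.Agent.Work.MP_6d7bb4_h65.Bnd1

/-! # MP_6d7bb4: the orders of the centres are bounded (helper65) -/

set_option autoImplicit false
set_option linter.unusedSectionVars false

namespace Pool.Agent.Work.MP_6d7bb4.h65

open MulAction Pool.Agent.Work.MP_6d7bb4.helper94

section sel
variable {V G : Type*} [Group G] [MulAction G V] {Γ : SimpleGraph V} {d : ℕ}

/-- generated by the `A w` -/
def TS (A : V → Subgroup G) (W : Set V) : Subgroup G := ⨆ w : W, A w.1

theorem le_TS {A : V → Subgroup G} {W : Set V} {w : V} (hw : w ∈ W) : A w ≤ TS A W :=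
  le_iSup (fun w : W => A w.1) ⟨w, hw⟩

theorem TS_le {A : V → Subgroup G} {W : Set V} {M : Subgroup G} (h : ∀ w ∈ W, A w ≤ M) :
    TS A W ≤ M := iSup_le (fun w => h w.1 w.2)

theorem TS_mono {A : V → Subgroup G} {W W' : Set V} (h : W ⊆ W') : TS A W ≤ TS A W' :=
  TS_le (fun _ hw => le_TS (h hw))

/-- finitely many suffice -/
theorem select (h : Loc G Γ d) {x y0 : V} (hx0 : Γ.Adj x y0) {W : Set V} {A : V → Subgroup G}
    (hst : ∀ w ∈ W, A w ≤ stabilizer G x)
    (ht : ∀ y, Γ.Adj x y → ∃ n ∈ TS A W, n • y0 = y) :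
    ∃ S : Finset V, (S : Set V) ⊆ W ∧ S.card ≤ d ∧
      ∀ y, Γ.Adj x y → ∃ n ∈ TS A (S : Set V), n • y0 = y := by
  classical
  obtain ⟨O, hO⟩ : ∃ O : Finset V → Set V,
    O = fun (S : Finset V) => {y | ∃ n ∈ TS A (S : Set V), n • y0 = y} := ⟨_, rfl⟩
  have hOm : ∀ S y, y ∈ O S ↔ ∃ n ∈ TS A (S : Set V), n • y0 = y := by
    intro S y
    rw [hO]
    exact Iff.rfl
  have hOn : ∀ S : Finset V, (S : Set V) ⊆ W → O S ⊆ {y | Γ.Adj x y} := by
    intro S hS y hy
    obtain ⟨n, hn, rfl⟩ := (hOm S y).mp hy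
    have h1 : n ∈ stabilizer G x := TS_le (fun w hw => hst w (hS hw)) hn
    have h2 := h.adj n x y0 hx0
    rwa [mem_stabilizer_iff.mp h1] at h2
  have hnf : {y | Γ.Adj x y}.Finite := Set.finite_coe_iff.mp (h.nfin x)
  have key : ∀ n : ℕ, ∃ S : Finset V, (S : Set V) ⊆ W ∧ S.card ≤ n ∧
      ((∀ y, Γ.Adj x y → ∃ n ∈ TS A (S : Set V), n • y0 = y) ∨ n + 1 ≤ (O S).ncard) := by
    intro n
    induction n with
    | zero =>
      refine ⟨∅, by simp, by simp, Or.inr ?_⟩
      have h1 : (O ∅).Finite := hnf.subset (hOn ∅ (by simp))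
      have h2 : y0 ∈ O ∅ := (hOm _ _).mpr ⟨1, Subgroup.one_mem _, one_smul _ _⟩
      have h3 := (Set.ncard_pos h1).mpr ⟨y0, h2⟩
      omega
    | succ n ih =>
      obtain ⟨S, hS, hc, h1 | h1⟩ := ih
      · exact ⟨S, hS, by omega, Or.inl h1⟩
      · by_cases h2 : ∀ y, Γ.Adj x y → ∃ n ∈ TS A (S : Set V), n • y0 = y
        · exact ⟨S, hS, by omega, Or.inl h2⟩
        · push Not at h2
          obtain ⟨y1, hy1, hn1⟩ := h2
          have h3 : ∃ w ∈ W, ∃ a ∈ A w, ∃ y ∈ O S, a • y ∉ O S := by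
            by_contra hcon
            push Not at hcon
            let M : Subgroup G :=
              { carrier := {g | ∀ y, g • y ∈ O S ↔ y ∈ O S}
                one_mem' := fun y => by rw [one_smul]
                mul_mem' := by
                  intro a b ha hb y
                  rw [mul_smul, ha, hb]
                inv_mem' := by
                  intro a ha y
                  rw [← ha, smul_inv_smul] }
            have hM : TS A W ≤ M := by
              refine TS_le (fun w hw a ha y => ⟨fun h4 => ?_, hcon w hw a ha y⟩)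
              have h5 := hcon w hw a⁻¹ ((A w).inv_mem ha) _ h4
              rwa [inv_smul_smul] at h5
            obtain ⟨m, hm, hm1⟩ := ht y1 hy1
            have h4 : y0 ∈ O S := (hOm _ _).mpr ⟨1, Subgroup.one_mem _, one_smul _ _⟩
            have h5 := (hM hm y0).mpr h4
            rw [hm1] at h5
            obtain ⟨k, hk, hk1⟩ := (hOm _ _).mp h5
            exact hn1 k hk hk1
          obtain ⟨w, hw, a, ha, y, hy, hay⟩ := h3
          have hS' : ((insert w S : Finset V) : Set V) ⊆ W := by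
            rw [Finset.coe_insert]
            exact Set.insert_subset hw hS
          have hle : TS A (S : Set V) ≤ TS A ((insert w S : Finset V) : Set V) :=
            TS_mono (by
              rw [Finset.coe_insert]
              exact Set.subset_insert _ _)
          have haw : a ∈ TS A ((insert w S : Finset V) : Set V) :=
            le_TS (w := w) (by
              rw [Finset.coe_insert]
              exact Set.mem_insert _ _) ha
          refine ⟨insert w S, hS', (Finset.card_insert_le _ _).trans (by omega), Or.inr ?_⟩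
          have h4 : O S ⊂ O (insert w S) := by
            refine Set.ssubset_iff_subset_ne.mpr ⟨?_, ?_⟩
            · intro v hv
              obtain ⟨k, hk, hk1⟩ := (hOm _ _).mp hv
              exact (hOm _ _).mpr ⟨k, hle hk, hk1⟩
            · intro he
              apply hay
              rw [he]
              obtain ⟨k, hk, hk1⟩ := (hOm _ _).mp hy
              refine (hOm _ _).mpr ⟨a * k, Subgroup.mul_mem _ haw (hle hk), ?_⟩
              rw [mul_smul, hk1]
          have h5 := Set.ncard_lt_ncard h4 (hnf.subset (hOn _ hS'))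
          omega
  obtain ⟨S, hS, hc, h1 | h1⟩ := key d
  · exact ⟨S, hS, hc, h1⟩
  · exfalso
    have h2 := Set.ncard_le_ncard (hOn S hS) hnf
    have h3 : {y | Γ.Adj x y}.ncard ≤ d := h.ncard x
    omega

/-- the group generated by subgroups which are transitive on the neighbours of adjacent vertices has
a trivial centraliser in the arc stabiliser -/
theorem EL (h : Loc G Γ d) {x y : V} (hxy : Γ.Adj x y) {T1 T2 : Subgroup G}
    (h1 : T1 ≤ stabilizer G x) (h2 : T2 ≤ stabilizer G y)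
    (ht1 : ∀ v, Γ.Adj x v → ∃ n ∈ T1, n • y = v) (ht2 : ∀ v, Γ.Adj y v → ∃ n ∈ T2, n • x = v)
    {z : G} (hzx : z • x = x) (hzy : z • y = y) (hz1 : ∀ t ∈ T1, t * z = z * t)
    (hz2 : ∀ t ∈ T2, t * z = z * t) : z = 1 := by
  have hzc : ∀ t ∈ T1 ⊔ T2, t * z = z * t := by
    have h3 : T1 ⊔ T2 ≤ Subgroup.centralizer {z} := by
      refine sup_le ?_ ?_
      · intro t ht
        rw [Subgroup.mem_centralizer_singleton_iff]
        exact hz1 t ht
      · intro t ht
        rw [Subgroup.mem_centralizer_singleton_iff]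
        exact hz2 t ht
    intro t ht
    exact Subgroup.mem_centralizer_singleton_iff.mp (h3 ht)
  apply h.faith
  intro v
  have h3 : ∃ m ∈ T1 ⊔ T2, m • x = v ∨ m • y = v := by
    refine conn_ind h.conn {v | ∃ m ∈ T1 ⊔ T2, m • x = v ∨ m • y = v} (x := x) ⟨1, Subgroup.one_mem _, Or.inl (one_smul _ _)⟩ ?_ v
    rintro u ⟨m, hm, hmu⟩ w huw
    rcases hmu with rfl | rfl
    · have h4 : Γ.Adj x (m⁻¹ • w) := by
        rw [← h.adj_iff m, smul_inv_smul]
        exact huw
      obtain ⟨n, hn, hn1⟩ := ht1 _ h4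
      refine ⟨m * n, Subgroup.mul_mem _ hm (Subgroup.mem_sup_left hn), Or.inr ?_⟩
      rw [mul_smul, hn1, smul_inv_smul]
    · have h4 : Γ.Adj y (m⁻¹ • w) := by
        rw [← h.adj_iff m, smul_inv_smul]
        exact huw
      obtain ⟨n, hn, hn1⟩ := ht2 _ h4
      refine ⟨m * n, Subgroup.mul_mem _ hm (Subgroup.mem_sup_right hn), Or.inl ?_⟩
      rw [mul_smul, hn1, smul_inv_smul]
  obtain ⟨m, hm, rfl | rfl⟩ := h3
  · rw [← mul_smul, ← hzc m hm, mul_smul, hzx]
  · rw [← mul_smul, ← hzc m hm, mul_smul, hzy]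

end sel

section bnd
variable {V G : Type*} [Group G] [MulAction G V] {Γ : SimpleGraph V} {d p s : ℕ} [Fact p.Prime]

theorem core_le (h : Loc G Γ d) (hs : 1 ≤ s) {w w' : V} (hw : Γ.Adj w w') {t : ℕ} :
    (Nb Γ p t w' ⊓ Wb Γ s w : Subgroup G) ≤ Nb Γ p s w := by
  refine le_Nb inf_le_right ?_ ((Nb_isP h t w').to_le inf_le_left)
  exact ((nm_Nb h t w').mono (Wb_le_st' hs hw)).inf (nm_self _)

theorem core_le' (h : Loc G Γ d) {w : V} {t : ℕ} :
    (Nb Γ p t w ⊓ Wb Γ s w : Subgroup G) ≤ Nb Γ p s w := by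
  refine le_Nb inf_le_right ?_ ((Nb_isP h t w).to_le inf_le_left)
  exact ((nm_Nb h t w).mono (Wb_le_st s w)).inf (nm_self _)

/-- the centre -/
def Zs (Γ : SimpleGraph V) (p s : ℕ) (x : V) : Subgroup G := OZ p (Nb Γ p s x)

theorem Zs_cj (h : Loc G Γ d) (g : G) (x : V) :
    (Zs Γ p s (g • x) : Subgroup G) = cj g (Zs Γ p s x) := by
  unfold Zs
  rw [Nb_cj h, OZ_cj]

theorem Zs_le (x : V) : (Zs Γ p s x : Subgroup G) ≤ Nb Γ p s x := OZ_le _ _

theorem Zs_isP (h : Loc G Γ d) (x : V) : IsPGroup p (Zs Γ p s x : Subgroup G) :=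
  (Nb_isP h s x).to_le (Zs_le x)

theorem Zs_comm {x : V} {z q : G} (hz : z ∈ (Zs Γ p s x : Subgroup G))
    (hq : q ∈ (Nb Γ p s x : Subgroup G)) : q * z = z * q := hz.2.2 q hq

theorem Zs_nm (h : Loc G Γ d) (x : V) : Nm (stabilizer G x) (Zs Γ p s x : Subgroup G) :=
  nm_of_equiv (Zs_cj h) x

theorem Zs_deep (h : Loc G Γ d) {b : ℕ} {x : V} (hb : (Zs Γ p s x : Subgroup G) ≤ Wb Γ b x) :
    (Zs Γ p s x : Subgroup G) ≤ Nb Γ p b x :=
  le_Nb hb ((Zs_nm h x).mono (Wb_le_st b x)) (Zs_isP h x)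

variable (G) in
/-- the critical radius -/
structure Crit (Γ : SimpleGraph V) (p s b : ℕ) : Prop where
  le : s ≤ b
  c1 : ∀ v, (Zs Γ p s v : Subgroup G) ≤ Wb Γ b v
  c2 : ∃ v, ¬ (Zs Γ p s v : Subgroup G) ≤ Wb Γ (b + 1) v

theorem crit_exists (h : Loc G Γ d) {x : V} (hne : (Zs Γ p s x : Subgroup G) ≠ ⊥) :
    ∃ b, Crit G Γ p s b := by
  classical
  have hex : ∃ j, ¬ ∀ v, (Zs Γ p s v : Subgroup G) ≤ Wb Γ j v := by
    by_contra hcon
    push Not at hcon
    apply hne
    rw [Subgroup.eq_bot_iff_forall]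
    intro z hz
    apply h.faith
    intro v
    exact hcon (Γ.dist x v) x hz v (le_refl _)
  obtain ⟨j, hj⟩ : ∃ j, j = Nat.find hex := ⟨_, rfl⟩
  have h1 : ¬ ∀ v, (Zs Γ p s v : Subgroup G) ≤ Wb Γ j v := by
    rw [hj]
    exact Nat.find_spec hex
  have h2 : ∀ i, i < j → ∀ v, (Zs Γ p s v : Subgroup G) ≤ Wb Γ i v := by
    intro i hi
    by_contra hcon
    exact Nat.find_min hex (hj ▸ hi) hcon
  have h3 : s < j := by
    by_contra hcon
    apply h1
    intro v
    exact ((Zs_le v).trans (Nb_le s v)).trans (Wb_anti (by omega) v)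
  obtain ⟨b, rfl⟩ : ∃ b, j = b + 1 := ⟨j - 1, by omega⟩
  push Not at h1
  exact ⟨b, by omega, h2 b (Nat.lt_succ_self b), h1⟩

/-- the critical vertices -/
def cv (Γ : SimpleGraph V) (b : ℕ) (x : V) : Set V := {w | Γ.dist x w = b}

theorem cv_st {b : ℕ} (hb : Crit G Γ p s b) (x : V) :
    ∀ w ∈ cv Γ b x, (Zs Γ p s w : Subgroup G) ≤ stabilizer G x := by
  intro w hw a ha
  refine hb.c1 w ha x ?_
  rw [SimpleGraph.dist_comm]
  exact le_of_eq hw

theorem T_tr (h : Loc G Γ d) (hs : 1 ≤ s) {b : ℕ} (hb : Crit G Γ p s b) {x0 y0 : V}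
    (hxy0 : Γ.Adj x0 y0) (x : V) : ∀ y y', Γ.Adj x y → Γ.Adj x y' →
      ∃ n ∈ (TS (Zs Γ p s) (cv Γ b x) : Subgroup G), n • y = y' := by
  -- a witness
  have hwit : ∃ v w v', Γ.dist v w = b ∧ Γ.Adj v v' ∧ ∃ a ∈ (Zs Γ p s w : Subgroup G),
      a ∈ B v v' ∧ a ∉ K Γ v := by
    obtain ⟨w, hw⟩ := hb.c2
    obtain ⟨a, ha, ha'⟩ := SetLike.not_le_iff_exists.mp hw
    rw [mem_Wb] at ha'
    push Not at ha'
    obtain ⟨u, hu, hau⟩ := ha'
    have h1 : Γ.dist w u = b + 1 := by
      by_contra hcon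
      exact hau (hb.c1 w ha u (by omega))
    have h2 : u ≠ w := by
      rintro rfl
      rw [SimpleGraph.dist_self] at h1
      omega
    obtain ⟨v, hv, hvd⟩ := Tr.closer_exists h.conn h2
    rw [SimpleGraph.dist_comm (u := u), h1] at hvd
    have h3 : v ≠ w := by
      rintro rfl
      rw [SimpleGraph.dist_self] at hvd
      have := hb.le
      omega
    obtain ⟨v', hv', hvd'⟩ := Tr.closer_exists h.conn h3
    refine ⟨v, w, v', by omega, hv', a, ha, ⟨?_, ?_⟩, ?_⟩
    · exact hb.c1 w ha v (by rw [SimpleGraph.dist_comm]; omega)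
    · exact hb.c1 w ha v' (by rw [SimpleGraph.dist_comm]; omega)
    · intro hK
      exact hau (hK.2 u hv.symm)
  obtain ⟨v, w, v', hvw, hvv', a, ha, haB, haK⟩ := hwit
  obtain ⟨g, hg⟩ : ∃ g : G, g • v = x := by
    obtain ⟨g1, hg1⟩ := vtr h hxy0 v
    obtain ⟨g2, hg2⟩ := vtr h hxy0 x
    exact ⟨g2 * g1⁻¹, by rw [mul_smul, ← hg1, inv_smul_smul, hg2]⟩
  have hT_cj : ∀ (g : G) (x : V), (TS (Zs Γ p s) (cv Γ b (g • x)) : Subgroup G) =
      cj g (TS (Zs Γ p s) (cv Γ b x)) := by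
    have key : ∀ (g : G) (x : V), (TS (Zs Γ p s) (cv Γ b (g • x)) : Subgroup G) ≤
        cj g (TS (Zs Γ p s) (cv Γ b x)) := by
      intro g x
      refine TS_le (fun w hw => ?_)
      have h1 : (Zs Γ p s w : Subgroup G) = cj g (Zs Γ p s (g⁻¹ • w)) := by
        rw [← Zs_cj h, smul_inv_smul]
      rw [h1]
      refine cj_mono g (le_TS (w := g⁻¹ • w) ?_)
      show Γ.dist x (g⁻¹ • w) = b
      rw [← dist_smul h g, smul_inv_smul]
      exact hw
    intro g x
    refine le_antisymm (key g x) ?_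
    have h1 := cj_mono g (key g⁻¹ (g • x))
    rw [inv_smul_smul, cj_inv_cj] at h1
    exact h1
  rcases h.sp x (TS (Zs Γ p s) (cv Γ b x)) (TS_le (cv_st hb x)) (nm_of_equiv
    (D := fun x => (TS (Zs Γ p s) (cv Γ b x) : Subgroup G)) hT_cj x) with ht | h1
  · exact ht
  · exfalso
    apply haK
    have h2 : g * a * g⁻¹ ∈ (TS (Zs Γ p s) (cv Γ b x) : Subgroup G) := by
      refine le_TS (w := g • w) ?_ ?_
      · show Γ.dist x (g • w) = b
        rw [← hg, dist_smul h]
        exact hvw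
      · rw [Zs_cj h]
        exact conj_mem_cj ha
    have h3 := h1 _ h2 (g • v') (by
      rw [← hg]
      exact h.adj g _ _ hvv') (by
      rw [mul_smul, mul_smul, inv_smul_smul, haB.2])
    rw [← hg, K_cj h, mem_cj] at h3
    have h4 : g⁻¹ * (g * a * g⁻¹) * g = a := by group
    rwa [h4] at h3

/-- elements of the centre which fix a ball around a critical vertex commute with the centre there -/
theorem Zs_cc (h : Loc G Γ d) (hs : 1 ≤ s) {b : ℕ} (hb : Crit G Γ p s b) {x w : V}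
    (hw : w ∈ cv Γ b x) {z : G} (hz : z ∈ (Zs Γ p s x : Subgroup G))
    (hzw : z ∈ (Wb Γ s w : Subgroup G)) : z ∈ (Nb Γ p s w : Subgroup G) := by
  have hw' : Γ.dist x w = b := hw
  have h1 := Zs_deep h (hb.c1 x) hz
  have hle := hb.le
  have h2 : w ≠ x := by
    rintro rfl
    rw [SimpleGraph.dist_self] at hw'
    omega
  obtain ⟨w', hww', hd⟩ := Tr.closer_exists h.conn h2
  rw [SimpleGraph.dist_comm (u := w), hw'] at hd
  have h3 : (Nb Γ p (1 + (b - 1)) x : Subgroup G) ≤ Nb Γ p 1 w' :=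
    Nb_dist h (le_refl 1) (b - 1) (by rw [SimpleGraph.dist_comm]; omega)
  rw [show 1 + (b - 1) = b by omega] at h3
  exact core_le h hs hww' ⟨h3 h1, hzw⟩

/-- the centres at adjacent vertices -/
theorem inf_card (h : Loc G Γ d) (hs : 1 ≤ s) {b : ℕ} (hb : Crit G Γ p s b) {x y : V}
    (hxy : Γ.Adj x y) :
    Nat.card (Zs Γ p s x ⊓ Zs Γ p s y : Subgroup G) ≤ io d s ^ (2 * d) := by
  classical
  obtain ⟨S1, hS1, hc1, ht1⟩ := select h hxy (cv_st hb x)
    (fun v hv => T_tr h hs hb hxy x y v hxy hv)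
  obtain ⟨S2, hS2, hc2, ht2⟩ := select h hxy.symm (cv_st hb y)
    (fun v hv => T_tr h hs hb hxy y x v hxy.symm hv)
  obtain ⟨E, hE⟩ : ∃ E : Subgroup G, E = Zs Γ p s x ⊓ Zs Γ p s y := ⟨_, rfl⟩
  rw [← hE]
  have hE1 : E ≤ Zs Γ p s x := by
    rw [hE]
    exact inf_le_left
  have hE2 : E ≤ Zs Γ p s y := by
    rw [hE]
    exact inf_le_right
  obtain ⟨f, hf⟩ : ∃ f : {w // w ∈ S1 ∪ S2} → Subgroup G, f = fun w => Wb Γ s w.1 := ⟨_, rfl⟩
  have hst : ∀ w ∈ S1 ∪ S2, E ≤ stabilizer G w := by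
    intro w hw z hz
    rcases Finset.mem_union.mp hw with hw | hw
    · exact hb.c1 x (hE1 hz) w (le_of_eq (hS1 hw))
    · exact hb.c1 y (hE2 hz) w (le_of_eq (hS2 hw))
  have hbot : (⨅ w, f w) ⊓ E = ⊥ := by
    rw [Subgroup.eq_bot_iff_forall]
    rintro z ⟨hz, hzE⟩
    have hzW : ∀ w ∈ S1 ∪ S2, z ∈ (Wb Γ s w : Subgroup G) := by
      intro w hw
      have h1 := (Subgroup.mem_iInf.mp hz) ⟨w, hw⟩
      rw [hf] at h1
      exact h1
    have hcomm : ∀ {S : Finset V}, (∀ w ∈ S, z ∈ (Nb Γ p s w : Subgroup G)) →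
        ∀ t ∈ (TS (Zs Γ p s) (S : Set V) : Subgroup G), t * z = z * t := by
      intro S hS
      have h1 : (TS (Zs Γ p s) (S : Set V) : Subgroup G) ≤ Subgroup.centralizer {z} := by
        refine TS_le (fun w hw t ht => ?_)
        rw [Subgroup.mem_centralizer_singleton_iff]
        exact (Zs_comm ht (hS w hw)).symm
      intro t ht
      exact Subgroup.mem_centralizer_singleton_iff.mp (h1 ht)
    refine EL h hxy (TS_le (fun w hw => cv_st hb x w (hS1 hw)))
      (TS_le (fun w hw => cv_st hb y w (hS2 hw))) ht1 ht2 ?_ ?_ ?_ ?_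
    · exact Nb_le_st s x (Zs_le x (hE1 hzE))
    · exact Nb_le_st s y (Zs_le y (hE2 hzE))
    · refine hcomm (fun w hw => ?_)
      exact Zs_cc h hs hb (hS1 hw) (hE1 hzE) (hzW w (Finset.mem_union_left _ hw))
    · refine hcomm (fun w hw => ?_)
      exact Zs_cc h hs hb (hS2 hw) (hE2 hzE) (hzW w (Finset.mem_union_right _ hw))
  have h1 : Nat.card E = (⨅ w, f w).relIndex E := by
    rw [← Subgroup.inf_relIndex_right, hbot, Subgroup.relIndex_bot_left]
  rw [h1]
  refine (Subgroup.relIndex_iInf_le _).trans ?_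
  refine (Finset.prod_le_pow_card _ _ (io d s) ?_).trans ?_
  · intro w _
    rw [hf]
    exact idx h (hst w.1 w.2) s
  · refine Nat.pow_le_pow_right (io_pos d s) ?_
    rw [Finset.card_univ, Fintype.card_coe]
    refine (Finset.card_union_le _ _).trans ?_
    omega

/-- the bound -/
def mb (d s : ℕ) : ℕ := (io d s ^ (2 * d)) ^ io d s + io d (2 * s + 1)

/-- THE BOUND FOR THE CENTRES -/
theorem Zs_card (h : Loc G Γ d) (hs : 1 ≤ s) {x y : V} (hxy : Γ.Adj x y) :
    Nat.card (Zs Γ p s x : Subgroup G) ≤ mb d s := by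
  by_cases hne : (Zs Γ p s x : Subgroup G) = ⊥
  · rw [hne, Subgroup.card_bot]
    have h1 := io_pos d (2 * s + 1)
    unfold mb
    omega
  obtain ⟨b, hb⟩ := crit_exists h hne
  by_cases hbs : s + 1 ≤ b
  · have hfP := h.fin_le (Nb_le_st (Γ := Γ) (p := p) s y)
    have hPx : (Nb Γ p s y : Subgroup G) ≤ stabilizer G x :=
      (Nb_le s y).trans (Wb_le_st' hs hxy.symm)
    have h1 : (Zs Γ p s x : Subgroup G) ≤ Nb Γ p s y :=
      ((Zs_deep h (hb.c1 x)).trans (Nb_anti h hbs x)).trans (Nb_adj h hs hxy)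
    have h2 := fixcard (A := (Zs Γ p s x : Subgroup G)) (C := Zs Γ p s x ⊓ Zs Γ p s y)
      (P := Nb Γ p s y) (D := Nb Γ p s x) (Nb_isP h s y) h1 ((Zs_nm h x).mono hPx)
      (fun a ha => ha.2.1) (fun a ha b hb => Zs_comm hb (Zs_le x ha)) inf_le_left
      (fun z hz hzc => ⟨hz, h1 hz, hz.2.1, hzc⟩) (fun q hq a ha => Zs_comm ha hq)
    have h3 : (Nb Γ p s x : Subgroup G).relIndex (Nb Γ p s y) ≤ io d s := by
      have h4 : (Wb Γ s x ⊓ Nb Γ p s y : Subgroup G) ≤ Nb Γ p s x := by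
        rw [inf_comm]
        exact core_le h hs hxy
      calc (Nb Γ p s x : Subgroup G).relIndex (Nb Γ p s y)
          ≤ (Wb Γ s x ⊓ Nb Γ p s y : Subgroup G).relIndex (Nb Γ p s y) :=
            Subgroup.relIndex_le_of_le_left h4 (rel_ne hfP)
        _ = (Wb Γ s x : Subgroup G).relIndex (Nb Γ p s y) := Subgroup.inf_relIndex_right _ _
        _ ≤ io d s := idx h hPx s
    have hpos : 0 < Nat.card (Zs Γ p s x ⊓ Zs Γ p s y : Subgroup G) := by
      have : Finite (Zs Γ p s x ⊓ Zs Γ p s y : Subgroup G) :=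
        h.fin_le (inf_le_left.trans ((Zs_le x).trans (Nb_le_st s x)))
      exact Nat.card_pos
    have h5 := inf_card h hs hb hxy
    have h6 : Nat.card (Zs Γ p s x : Subgroup G) ≤ (io d s ^ (2 * d)) ^ io d s :=
      (h2.trans (Nat.pow_le_pow_right hpos h3)).trans (Nat.pow_le_pow_left h5 _)
    unfold mb
    omega
  · have hbot : (Nb Γ p (s + (b + 1)) x : Subgroup G) = ⊥ := by
      rw [Subgroup.eq_bot_iff_forall]
      intro z hz
      have hcomm : ∀ {u : V}, (∀ w ∈ cv Γ b u, z ∈ (Nb Γ p s w : Subgroup G)) →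
          ∀ t ∈ (TS (Zs Γ p s) (cv Γ b u) : Subgroup G), t * z = z * t := by
        intro u hu
        have h1 : (TS (Zs Γ p s) (cv Γ b u) : Subgroup G) ≤ Subgroup.centralizer {z} := by
          refine TS_le (fun w hw t ht => ?_)
          rw [Subgroup.mem_centralizer_singleton_iff]
          exact (Zs_comm ht (hu w hw)).symm
        intro t ht
        exact Subgroup.mem_centralizer_singleton_iff.mp (h1 ht)
      refine EL h hxy (TS_le (cv_st hb x)) (TS_le (cv_st hb y))
        (fun v hv => T_tr h hs hb hxy x y v hxy hv)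
        (fun v hv => T_tr h hs hb hxy y x v hxy.symm hv) ?_ ?_ ?_ ?_
      · exact Nb_le_st _ x hz
      · exact Wb_le_st' (by omega) hxy (Nb_le _ x hz)
      · refine hcomm (fun w hw => ?_)
        have hw' : Γ.dist x w = b := hw
        exact Nb_dist h hs (b + 1) (by omega) hz
      · refine hcomm (fun w hw => ?_)
        have hw' : Γ.dist y w = b := hw
        have h1 := h.conn.dist_triangle (u := x) (v := y) (w := w)
        rw [SimpleGraph.dist_eq_one_iff_adj.mpr hxy] at h1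
        exact Nb_dist h hs (b + 1) (by omega) hz
    have hf := h.fin_le (Nb_le_st (Γ := Γ) (p := p) s x)
    have h1 : Nat.card (Nb Γ p s x : Subgroup G) =
        (Wb Γ (s + (b + 1)) x : Subgroup G).relIndex (Nb Γ p s x) := by
      rw [← Subgroup.inf_relIndex_right]
      have h2 : (Wb Γ (s + (b + 1)) x ⊓ Nb Γ p s x : Subgroup G) = ⊥ := by
        rw [eq_bot_iff, ← hbot, inf_comm]
        exact core_le' h
      rw [h2, Subgroup.relIndex_bot_left]
    have h2 := idx h (Nb_le_st (Γ := Γ) (p := p) s x) (s + (b + 1))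
    have h3 : io d (s + (b + 1)) ≤ io d (2 * s + 1) := by
      unfold io
      have h4 : (d + 1) ^ (s + (b + 1)) ≤ (d + 1) ^ (2 * s + 1) :=
        Nat.pow_le_pow_right (Nat.succ_pos d) (by omega)
      exact (Nat.pow_le_pow_left h4 _).trans
        (Nat.pow_le_pow_right (Nat.pow_pos (Nat.succ_pos d)) h4)
    have h4 : Nat.card (Zs Γ p s x : Subgroup G) ≤ Nat.card (Nb Γ p s x : Subgroup G) :=
      Subgroup.card_le_of_le (Zs_le x)
    unfold mb
    omega

end bnd

end Pool.Agent.Work.MP_6d7bb4.h65
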