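import Mathlib

/-! # MP_6d7bb4: p-groups of matrices (helper65) -/

set_option autoImplicit false
set_option linter.unusedSectionVars false

namespace Pool.Agent.Work.MP_6d7bb4.h65

open Module
open scoped commutatorElement

section diag
variable {L : Type*} [Field L] [IsAlgClosed L] {M : Type*} [AddCommGroup M] [Module L M]
  [FiniteDimensional L M] {E : Type*} [Group E]

theorem semis (f : Module.End L M) {p : ℕ} (hpL : (p : L) ≠ 0) (hf : f ^ p = 1) :
    f.IsSemisimple := by
  refine Module.End.isSemisimple_of_squarefree_aeval_eq_zero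
    (p := (Polynomial.X ^ p - Polynomial.C 1 : Polynomial L)) ?_ ?_
  · exact (Polynomial.separable_X_pow_sub_C (1 : L) hpL one_ne_zero).squarefree
  · simp [hf]

theorem diag_card (ρ : E →* Module.End L M) (hinj : Function.Injective ρ) {p : ℕ} (hp : p.Prime)
    (hpL : (p : L) ≠ 0) (hE1 : ∀ a : E, a ^ p = 1) (hE2 : ∀ a b : E, a * b = b * a) :
    Nat.card E ≤ p ^ finrank L M := by
  classical
  have hsem : ∀ e, (ρ e).IsSemisimple := fun e => semis (ρ e) hpL (by rw [← map_pow, hE1, map_one])
  have hcomm : ∀ i j, Commute (ρ i) (ρ j) := by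
    intro i j
    show ρ i * ρ j = ρ j * ρ i
    rw [← map_mul, ← map_mul, hE2]
  have htop := Module.End.iSup_iInf_maxGenEigenspace_eq_top_of_iSup_maxGenEigenspace_eq_top_of_commute
    (fun e => ρ e) (fun i j _ => hcomm i j) (fun e => Module.End.iSup_maxGenEigenspace_eq_top _)
  have hind := Module.End.independent_iInf_maxGenEigenspace_of_forall_mapsTo
    (fun e => ρ e) (fun i j φ => Module.End.mapsTo_maxGenEigenspace_of_comm (hcomm j i) φ)
  have heig : ∀ (χ : E → L) (v : M), v ∈ (⨅ e, (ρ e).maxGenEigenspace (χ e) : Submodule L M) →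
      ∀ e, ρ e v = χ e • v := by
    intro χ v hv e
    rw [Submodule.mem_iInf] at hv
    have h1 := hv e
    rw [(hsem e).isFinitelySemisimple.maxGenEigenspace_eq_eigenspace] at h1
    exact Module.End.mem_eigenspace_iff.mp h1
  obtain ⟨Z, hZ⟩ : ∃ Z : Finset L, Z = (Polynomial.nthRoots p (1 : L)).toFinset := ⟨_, rfl⟩
  have hZc : Z.card ≤ p := by
    rw [hZ]
    exact (Multiset.toFinset_card_le _).trans (Polynomial.card_nthRoots p 1)
  have hZm : ∀ z : L, z ^ p = 1 → z ∈ Z := by
    intro z hz
    rw [hZ, Multiset.mem_toFinset, Polynomial.mem_nthRoots hp.pos]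
    exact hz
  let T : Type _ := {χ : E → L // (⨅ e, (ρ e).maxGenEigenspace (χ e) : Submodule L M) ≠ ⊥}
  have : Fintype T := hind.fintypeNeBotOfFiniteDimensional
  have hT : Fintype.card T ≤ finrank L M := hind.subtype_ne_bot_le_finrank
  have hroot : ∀ (χ : T) (e : E), χ.1 e ∈ Z := by
    intro χ e
    refine hZm _ ?_
    obtain ⟨v, hv, hv0⟩ := (Submodule.ne_bot_iff _).mp χ.2
    have h1 := heig χ.1 v hv e
    have h2 : ∀ k : ℕ, (ρ e ^ k) v = χ.1 e ^ k • v := by
      intro k
      induction k with
      | zero => simp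
      | succ k ih =>
        rw [pow_succ', Module.End.mul_apply, ih, map_smul, h1, smul_smul, ← pow_succ]
    have h3 := h2 p
    rw [← map_pow, hE1, map_one, Module.End.one_apply] at h3
    have h4 : (χ.1 e ^ p - 1) • v = 0 := by
      rw [sub_smul, one_smul, ← h3, sub_self]
    rcases smul_eq_zero.mp h4 with h5 | h5
    · exact sub_eq_zero.mp h5
    · exact absurd h5 hv0
  let Φ : E → (T → Z) := fun e χ => ⟨χ.1 e, hroot χ e⟩
  have hΦ : Function.Injective Φ := by
    intro e e' hee
    refine hinj (LinearMap.ext fun v => ?_)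
    have h1 : (⊤ : Submodule L M) ≤ LinearMap.eqLocus (ρ e) (ρ e') := by
      rw [← htop]
      refine iSup_le fun χ => ?_
      by_cases h : (⨅ e, (ρ e).maxGenEigenspace (χ e) : Submodule L M) = ⊥
      · rw [h]
        exact bot_le
      · intro w hw
        have h2 := heig χ w hw e
        have h3 := heig χ w hw e'
        have h4 : χ e = χ e' := congrArg Subtype.val (congrFun hee ⟨χ, h⟩)
        show ρ e w = ρ e' w
        rw [h2, h3, h4]
    exact h1 (Submodule.mem_top (x := v))
  have h1 := Nat.card_le_card_of_injective Φ hΦ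
  refine h1.trans ?_
  rw [Nat.card_eq_fintype_card, Fintype.card_fun, Fintype.card_coe]
  exact (Nat.pow_le_pow_left hZc _).trans (Nat.pow_le_pow_right hp.pos hT)

end diag

section unip
variable {K : Type*} [Field K] {p : ℕ} [Fact p.Prime] [CharP K p] {P : Type*} [Group P] [Finite P]

theorem fixed_vec0 (hP : IsPGroup p P) {M : Type*} [AddCommGroup M] [Module (ZMod p) M]
    (ρ : P → M →+ M) (h1 : ∀ x, ρ 1 x = x) (hm : ∀ a b x, ρ (a * b) x = ρ a (ρ b x)) (x : M)
    (hx : x ≠ 0) : ∃ v : M, v ≠ 0 ∧ ∀ g, ρ g v = v := by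
  classical
  obtain ⟨S, hSd⟩ : ∃ S : Submodule (ZMod p) M,
    S = Submodule.span (ZMod p) (Set.range fun g => ρ g x) := ⟨_, rfl⟩
  have hS : ∀ (g : P) (v : M), v ∈ S → ρ g v ∈ S := by
    intro g v hv
    have h1 : S ≤ S.comap ((ρ g).toZModLinearMap p) := by
      nth_rewrite 1 [hSd]
      refine Submodule.span_le.mpr ?_
      rintro _ ⟨g', rfl⟩
      show ρ g (ρ g' x) ∈ S
      rw [hSd]
      exact Submodule.subset_span ⟨g * g', hm g g' x⟩
    exact h1 hv
  have : Module.Finite (ZMod p) S := by
    rw [hSd]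
    exact Module.Finite.span_of_finite _ (Set.finite_range _)
  have : Finite S := Module.finite_of_finite (ZMod p)
  let _ : MulAction P S :=
    { smul := fun g v => ⟨ρ g v.1, hS g v.1 v.2⟩
      one_smul := fun v => Subtype.ext (h1 v.1)
      mul_smul := fun g g' v => Subtype.ext (hm g g' v.1) }
  have h0 : (0 : S) ∈ MulAction.fixedPoints P S := by
    intro g
    exact Subtype.ext (map_zero (ρ g))
  have hxS : x ∈ S := by
    rw [hSd]
    exact Submodule.subset_span ⟨1, h1 x⟩
  have hdvd : p ∣ Nat.card S := by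
    have h1 : Nontrivial S := ⟨⟨0, ⟨x, hxS⟩, fun h => hx (congrArg Subtype.val h).symm⟩⟩
    have h2 : Nat.card S = Nat.card (ZMod p) ^ finrank (ZMod p) S := Module.natCard_eq_pow_finrank
    rw [h2, Nat.card_zmod]
    exact dvd_pow_self p (Module.finrank_pos).ne'
  obtain ⟨v, hv, hv0⟩ := hP.exists_fixed_point_of_prime_dvd_card_of_fixed_point S hdvd h0
  refine ⟨v.1, fun h => hv0 (Subtype.ext h.symm), fun g => ?_⟩
  exact congrArg Subtype.val (hv g)

theorem fixed_vec (hP : IsPGroup p P) {M : Type*} [AddCommGroup M] [Module K M] [Nontrivial M]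
    (ρ : P →* Module.End K M) : ∃ v : M, v ≠ 0 ∧ ∀ g, ρ g v = v := by
  obtain ⟨x, hx⟩ := exists_ne (0 : M)
  have hpM : ∀ v : M, p • v = 0 := by
    intro v
    rw [← Nat.cast_smul_eq_nsmul K, CharP.cast_eq_zero, zero_smul]
  let _ : Module (ZMod p) M := AddCommGroup.zmodModule hpM
  exact fixed_vec0 hP (fun g => (ρ g).toAddMonoidHom) (fun x => by simp)
    (fun a b x => by simp) x hx

/-- the action on the quotient by a fixed line -/
def quo {M : Type*} [AddCommGroup M] [Module K M] (ρ : P →* Module.End K M) (S : Submodule K M)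
    (h : ∀ g, S ≤ S.comap (ρ g)) : P →* Module.End K (M ⧸ S) where
  toFun g := S.mapQ S (ρ g) (h g)
  map_one' := by
    refine LinearMap.ext fun x => ?_
    induction x using Submodule.Quotient.induction_on with
    | _ x =>
      rw [Submodule.mapQ_apply, map_one]
      rfl
  map_mul' g g' := by
    refine LinearMap.ext fun x => ?_
    induction x using Submodule.Quotient.induction_on with
    | _ x =>
      rw [Submodule.mapQ_apply, map_mul]
      rfl

theorem unip (hP : IsPGroup p P) (n : ℕ) : ∀ {M : Type*} [AddCommGroup M] [Module K M]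
    [FiniteDimensional K M] (ρ : P →* Module.End K M), finrank K M = n →
    ∀ g ∈ derivedSeries P n, ρ g = 1 := by
  induction n with
  | zero =>
    intro M _ _ _ ρ hM g _
    have : Subsingleton M := Module.finrank_zero_iff.mp hM
    exact LinearMap.ext fun x => Subsingleton.elim _ _
  | succ n ih =>
    intro M _ _ _ ρ hM g hg
    have : Nontrivial M := Module.nontrivial_of_finrank_pos (R := K) (by omega)
    obtain ⟨v, hv0, hv⟩ := fixed_vec hP ρ
    have hS : ∀ g, K ∙ v ≤ (K ∙ v).comap (ρ g) := by
      intro g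
      rw [Submodule.span_singleton_le_iff_mem, Submodule.mem_comap, hv]
      exact Submodule.mem_span_singleton_self v
    have hfr : finrank K (M ⧸ (K ∙ v)) = n := by
      have h1 := Submodule.finrank_quotient_add_finrank (K ∙ v)
      rw [finrank_span_singleton hv0, hM] at h1
      omega
    have h2 := ih (quo ρ (K ∙ v) hS) hfr
    have h3 : ∀ g ∈ derivedSeries P n, ∀ x, ∃ a : K, ρ g x = x + a • v := by
      intro g hg x
      have h4 := h2 g hg
      have h5 : quo ρ (K ∙ v) hS g (Submodule.Quotient.mk x) = Submodule.Quotient.mk x := by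
        rw [h4]
        rfl
      have h6 : (Submodule.Quotient.mk (ρ g x) : M ⧸ (K ∙ v)) = Submodule.Quotient.mk x := h5
      rw [Submodule.Quotient.eq] at h6
      obtain ⟨a, ha⟩ := Submodule.mem_span_singleton.mp h6
      exact ⟨a, by rw [ha]; abel⟩
    have h4 : derivedSeries P (n + 1) ≤ ρ.ker := by
      rw [derivedSeries_succ, Subgroup.commutator_le]
      intro a ha b hb
      rw [MonoidHom.mem_ker]
      have h5 : ρ (a * b) = ρ (b * a) := by
        refine LinearMap.ext fun x => ?_
        obtain ⟨α, hα⟩ := h3 a ha x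
        obtain ⟨β, hβ⟩ := h3 b hb x
        rw [map_mul, map_mul, Module.End.mul_apply, Module.End.mul_apply, hα, hβ, map_add, map_add,
          map_smul, map_smul, hv, hv, hα, hβ]
        abel
      have h6 : ⁅a, b⁆ = a * b * (b * a)⁻¹ := by
        rw [commutatorElement_def]
        group
      have h7 : ρ (b * a) * ρ (b * a)⁻¹ = 1 := by
        rw [← map_mul, mul_inv_cancel, map_one]
      rw [h6, map_mul, h5, h7]
    exact MonoidHom.mem_ker.mp (h4 hg)

end unip

/-- elementary abelian subgroups of the `n`-th derived subgroup of a `p`-group of matrices of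
degree `n` -/
theorem gl_card {K : Type*} [Field K] {n p : ℕ} (hp : p.Prime) {P : Type*} [Group P] [Finite P]
    (hP : IsPGroup p P) (ρ : P →* GL (Fin n) K) (hρ : Function.Injective ρ) (E : Subgroup P)
    (hE : E ≤ derivedSeries P n) (hE1 : ∀ a ∈ E, a ^ p = 1) (hE2 : ∀ a ∈ E, ∀ b ∈ E, a * b = b * a) :
    Nat.card E ≤ p ^ n := by
  have : Fact p.Prime := ⟨hp⟩
  by_cases hK : (p : K) = 0
  · have : CharP K p := by
      obtain ⟨q, hq⟩ := CharP.exists K
      have h1 := (CharP.cast_eq_zero_iff K q p).mp hK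
      rcases (Nat.dvd_prime hp).mp h1 with h2 | h2
      · subst h2
        exact absurd rfl (CharP.char_ne_one K 1)
      · rwa [h2] at hq
    let ρ' : P →* Module.End K (Fin n → K) :=
      ((Matrix.toLinAlgEquiv' : Matrix (Fin n) (Fin n) K ≃ₐ[K] _).toRingEquiv.toRingHom.toMonoidHom).comp
        ((Units.coeHom (Matrix (Fin n) (Fin n) K)).comp ρ)
    have hρ' : Function.Injective ρ' := by
      intro a b hab
      exact hρ (Units.ext ((Matrix.toLinAlgEquiv' : Matrix (Fin n) (Fin n) K ≃ₐ[K] _).injective hab))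
    have h1 := unip (K := K) hP n ρ' (by simp)
    have h2 : E = ⊥ := by
      rw [eq_bot_iff]
      intro g hg
      rw [Subgroup.mem_bot]
      exact hρ' (by rw [h1 g (hE hg), map_one])
    rw [h2]
    simpa using Nat.one_le_pow _ _ hp.pos
  · let L := AlgebraicClosure K
    have hpL : (p : L) ≠ 0 := by
      intro h
      refine hK ((algebraMap K L).injective ?_)
      rw [map_natCast, map_zero, h]
    let ρ' : E →* Module.End L (Fin n → L) :=
      ((Matrix.toLinAlgEquiv' : Matrix (Fin n) (Fin n) L ≃ₐ[L] _).toRingEquiv.toRingHom.toMonoidHom).comp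
        (((algebraMap K L).mapMatrix : Matrix (Fin n) (Fin n) K →+* Matrix (Fin n) (Fin n) L).toMonoidHom.comp
        ((Units.coeHom (Matrix (Fin n) (Fin n) K)).comp (ρ.comp E.subtype)))
    have hρ' : Function.Injective ρ' := by
      intro a b hab
      have h1 := (Matrix.toLinAlgEquiv' : Matrix (Fin n) (Fin n) L ≃ₐ[L] _).injective hab
      have h2 : (ρ a.1).1 = (ρ b.1).1 := by
        ext i j
        have h3 := congrFun (congrFun h1 i) j
        exact (algebraMap K L).injective h3
      exact Subtype.ext (hρ (Units.ext h2))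
    have h1 := diag_card ρ' hρ' hp hpL (fun a => Subtype.ext (hE1 a.1 a.2))
      (fun a b => Subtype.ext (hE2 a.1 a.2 b.1 b.2))
    rwa [Module.finrank_fin_fun] at h1

end Pool.Agent.Work.MP_6d7bb4.h65
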