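import Pool.Agent.Work.MP_6d7bb4_h65.Main
import Pool.Agent.Work.MP_6d7bb4_h65.Lin

/-! # MP_6d7bb4: linear groups, and the criterion (helper65) -/

set_option autoImplicit false
set_option linter.unusedSectionVars false

namespace Pool.Agent.Work.MP_6d7bb4.h65

open MulAction Pool.Agent.Work.MP_6d7bb4.helper94

section crit
variable {V : Type*} {Γ : SimpleGraph V} {Ω : Type*}

/-- the stabiliser of a vertex -/
def stab (Γ : SimpleGraph V) (H : Subgroup (Γ ≃g Γ)) (x : V) : Subgroup (Γ ≃g Γ) where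
  carrier := {g | g ∈ H ∧ g x = x}
  one_mem' := ⟨H.one_mem, rfl⟩
  mul_mem' := by
    rintro a b ⟨h1, h2⟩ ⟨h3, h4⟩
    refine ⟨H.mul_mem h1 h3, ?_⟩
    rw [Tr.mul_app, h4, h2]
  inv_mem' := by
    rintro a ⟨h1, h2⟩
    refine ⟨H.inv_mem h1, ?_⟩
    have h3 := congrArg (a⁻¹ : Γ ≃g Γ) h2
    rw [Tr.inv_app] at h3
    exact h3.symm

/-- the pointwise stabiliser of a ball -/
def ballFix (Γ : SimpleGraph V) (H : Subgroup (Γ ≃g Γ)) (s : ℕ) (x : V) : Subgroup (Γ ≃g Γ) where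
  carrier := {g | g ∈ H ∧ ∀ v, Γ.dist x v ≤ s → g v = v}
  one_mem' := ⟨H.one_mem, fun _ _ => rfl⟩
  mul_mem' := by
    rintro a b ⟨h1, h2⟩ ⟨h3, h4⟩
    refine ⟨H.mul_mem h1 h3, fun v hv => ?_⟩
    rw [Tr.mul_app, h4 v hv, h2 v hv]
  inv_mem' := by
    rintro a ⟨h1, h2⟩
    refine ⟨H.inv_mem h1, fun v hv => ?_⟩
    have h3 := congrArg (a⁻¹ : Γ ≃g Γ) (h2 v hv)
    rw [Tr.inv_app] at h3
    exact h3.symm

/-- if the `l`-th derived subgroups of the `p`-groups contain only small elementary abelian groups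
then the groups `EE` are small -/
theorem EE_small {H : Subgroup (Γ ≃g Γ)} {d p : ℕ} (hp : p.Prime) (h : Loc H Γ d) {s l r t : ℕ}
    (hst : s ≤ t) (x : V)
    (hC : ∀ P : Subgroup (Γ ≃g Γ), (P ≤ H ∧ IsPGroup p P ∧
      (∀ g ∈ P, ∀ v, Γ.dist x v ≤ s → g v = v) ∧
      ∀ k ∈ H, k x = x → ∀ g ∈ P, k * g * k⁻¹ ∈ P) →
      ∀ E : Subgroup P, E ≤ derivedSeries P l → ((∀ a ∈ E, a ^ p = 1) ∧
        ∀ a ∈ E, ∀ b ∈ E, a * b = b * a) → Nat.card E ≤ p ^ r) :
    Nat.card (EE Γ p l t t x : Subgroup H) ≤ p ^ r := by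
  obtain ⟨⟨h1, h2, h3, h4⟩, -⟩ := core_spec hp h t x
  have h5 := hC (core Γ H p t x) ⟨h1, h2, fun g hg v hv => h3 g hg v (hv.trans hst), h4⟩
  obtain ⟨M, hM⟩ : ∃ M : Subgroup (Γ ≃g Γ), M = (EE Γ p l t t x : Subgroup H).map H.subtype :=
    ⟨_, rfl⟩
  have hm : ∀ z, z ∈ M ↔ z ∈ (derivedSeries (core Γ H p t x) l).map (core Γ H p t x).subtype ∧
      z ^ p = 1 ∧ ∀ g ∈ (derivedSeries (core Γ H p t x) l).map (core Γ H p t x).subtype,
        g * z = z * g := by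
    intro z
    rw [hM]
    exact EE_map hp h (le_refl t) x z
  have hMc : M ≤ core Γ H p t x := by
    intro z hz
    obtain ⟨⟨a, _, rfl⟩, -, -⟩ := (hm z).mp hz
    exact a.2
  rw [← EE_card x, ← hM, ← Nat.card_congr (Subgroup.subgroupOfEquivOfLe hMc).toEquiv]
  refine h5 _ ?_ ⟨?_, ?_⟩
  · intro a ha
    obtain ⟨⟨b, hb, hba⟩, -, -⟩ := (hm a.1).mp (Subgroup.mem_subgroupOf.mp ha)
    have : b = a := Subtype.ext hba
    rw [← this]
    exact hb
  · intro a ha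
    exact Subtype.ext ((hm a.1).mp (Subgroup.mem_subgroupOf.mp ha)).2.1
  · intro a ha b hb
    exact Subtype.ext (((hm b.1).mp (Subgroup.mem_subgroupOf.mp hb)).2.2 a.1
      ((hm a.1).mp (Subgroup.mem_subgroupOf.mp ha)).1)

/-- groups for which the pointwise stabilisers of balls are linear of degree `n` -/
theorem lin_small {H : Subgroup (Γ ≃g Γ)} {s n : ℕ}
    (h1 : ∀ v : V, {g : Γ ≃g Γ | g ∈ H ∧ g v = v}.Finite)
    (h2 : ∀ x : V, ∃ (K : Type) (_ : Field K) (ρ : ballFix Γ H s x →* GL (Fin n) K),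
      Function.Injective ρ) (x : V) {p : ℕ} (hp : p.Prime) (P : Subgroup (Γ ≃g Γ))
    (hPP : P ≤ H ∧ IsPGroup p P ∧ (∀ g ∈ P, ∀ v, Γ.dist x v ≤ s → g v = v) ∧
      ∀ k ∈ H, k x = x → ∀ g ∈ P, k * g * k⁻¹ ∈ P) (E : Subgroup P)
    (hE : E ≤ derivedSeries P n) (hE1 : ∀ a ∈ E, a ^ p = 1)
    (hE2 : ∀ a ∈ E, ∀ b ∈ E, a * b = b * a) : Nat.card E ≤ p ^ n := by
  obtain ⟨hPH, hP, hPs, hPn⟩ := hPP
  obtain ⟨K, _, ρ, hρ⟩ := h2 x
  have hle : P ≤ ballFix Γ H s x := fun g hg => ⟨hPH hg, hPs g hg⟩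
  have : Finite P := by
    refine ((h1 x).subset (?_ : (P : Set (Γ ≃g Γ)) ⊆ _)).to_subtype
    intro g hg
    refine ⟨hPH hg, hPs g hg x ?_⟩
    rw [SimpleGraph.dist_self]
    exact Nat.zero_le _
  exact gl_card hp hP (ρ.comp (Subgroup.inclusion hle))
    (hρ.comp (Subgroup.inclusion_injective hle)) E hE hE1 hE2

/-- the derived series reaches the trivial group -/
theorem derived_card {P : Type*} [Group P] [Finite P] (hP : Group.IsSolvable P) :
    derivedSeries P (Nat.card P) = ⊥ := by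
  obtain ⟨m, hm⟩ := hP.solvable
  have h1 : ∀ k, derivedSeries P k = ⊥ ∨ Nat.card (derivedSeries P k) + k ≤ Nat.card P := by
    intro k
    induction k with
    | zero =>
      right
      rw [derivedSeries_zero, Subgroup.card_top]
      omega
    | succ k ih =>
      rcases ih with h | h
      · left
        rw [derivedSeries_succ, h]
        exact Subgroup.commutator_bot_right _
      · by_cases h2 : derivedSeries P (k + 1) = derivedSeries P k
        · left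
          have h3 : ∀ j, derivedSeries P (k + j) = derivedSeries P k := by
            intro j
            induction j with
            | zero => rfl
            | succ j ihj =>
              rw [← add_assoc, derivedSeries_succ, ihj, ← derivedSeries_succ, h2]
          rw [h2, ← h3 m, eq_bot_iff, ← hm]
          exact derivedSeries_antitone P (by omega)
        · right
          have h4 : derivedSeries P (k + 1) < derivedSeries P k :=
            lt_of_le_of_ne (derivedSeries_antitone P (Nat.le_succ k)) h2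
          have h5 : Nat.card (derivedSeries P (k + 1)) < Nat.card (derivedSeries P k) := by
            have h6 : (derivedSeries P (k + 1) : Set P) ⊂ derivedSeries P k := h4
            have h7 := Set.ncard_lt_ncard h6 (Set.toFinite _)
            exact h7
          omega
  rcases h1 (Nat.card P) with h | h
  · exact h
  · have h2 : 0 < Nat.card (derivedSeries P (Nat.card P)) := Nat.card_pos
    omega

/-- if there are only finitely many classes, then the stabilisers have bounded order -/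
theorem card_bound [Fintype Ω] {F : Subgroup (Equiv.Perm Ω)}
    (hF1 : ∀ a b : Ω, ∃ σ ∈ F, σ a = b) (hT : Γ.IsTree)
    (hreg : ∀ v : V, Nonempty (Γ.neighborSet v ≃ Ω))
    (S : Finset (Subgroup (Γ ≃g Γ))) : ∃ m : ℕ, ∀ H : Subgroup (Γ ≃g Γ),
      (∀ v : V, {g : Γ ≃g Γ | g ∈ H ∧ g v = v}.Finite) →
      (∀ x : V, ∃ e : Γ.neighborSet x ≃ Ω, LA Γ H F x e) →
      (∃ g ∈ H, ∃ x y : V, Γ.Adj x y ∧ g x = y ∧ g y = x ∧ g * g = 1) →
      (∃ K ∈ S, ∃ a : Γ ≃g Γ, H = K.map (MulAut.conj a).toMonoidHom) →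
      ∀ x, Nat.card (stab Γ H x) ≤ m := by
  have hc := hT.connected
  obtain ⟨o⟩ := hc.nonempty
  refine ⟨S.sup (fun K => Nat.card (stab Γ K o)), ?_⟩
  rintro H h1 h2 ⟨g, hg, u, w, huw, e1, e2, e3⟩ ⟨K, hK, a, hH⟩ x
  have hnb : ∀ z : V, ∃ z', Γ.Adj z z' := by
    intro z
    obtain ⟨e⟩ := hreg u
    obtain ⟨e'⟩ := hreg z
    exact ⟨(e'.symm (e ⟨w, huw⟩)).1, (e'.symm (e ⟨w, huw⟩)).2⟩
  have hvt : ∀ z z' : V, ∃ h ∈ H, h z = z' := by
    intro z z'
    obtain ⟨z1, hz1⟩ := hnb z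
    obtain ⟨z1', hz1'⟩ := hnb z'
    obtain ⟨k, hk, e4, -⟩ := arcs hF1 hc h2 hg huw e1 e2 hz1
    obtain ⟨k', hk', e6, -⟩ := arcs hF1 hc h2 hg huw e1 e2 hz1'
    refine ⟨k' * k⁻¹, H.mul_mem hk' (H.inv_mem hk), ?_⟩
    rw [Tr.mul_app, ← e4, Tr.inv_app, e6]
  have hKo : (stab Γ K o : Set (Γ ≃g Γ)).Finite := by
    have h3 : (stab Γ K o : Set (Γ ≃g Γ)) ⊆ (fun z => a⁻¹ * z * a) '' {g | g ∈ H ∧ g (a o) = a o} := by
      rintro k ⟨hk, hko⟩
      refine ⟨a * k * a⁻¹, ⟨?_, ?_⟩, ?_⟩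
      · rw [hH]
        exact mem_conj.mpr ⟨k, hk, rfl⟩
      · rw [Tr.mul_app, Tr.mul_app, Tr.inv_app, hko]
      · show a⁻¹ * (a * k * a⁻¹) * a = k
        group
    exact ((h1 (a o)).image _).subset h3
  have : Finite (stab Γ K o) := hKo.to_subtype
  have hHK : ∀ z, z ∈ H → ∃ g ∈ K, a * g * a⁻¹ = z := by
    intro z hz
    rw [hH] at hz
    exact mem_conj.mp hz
  obtain ⟨h, hh, hx⟩ := hvt (a o) x
  refine (Nat.card_le_card_of_injective
    (fun z : stab Γ H x => (⟨(h * a)⁻¹ * z.1 * (h * a), ?_, ?_⟩ : stab Γ K o)) ?_).trans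
    (Finset.le_sup (f := fun K => Nat.card (stab Γ K o)) hK)
  · have h3 : h⁻¹ * z.1 * h ∈ H := H.mul_mem (H.mul_mem (H.inv_mem hh) z.2.1) hh
    obtain ⟨k, hk, hk1⟩ := hHK _ h3
    have h4 : (h * a)⁻¹ * z.1 * (h * a) = k := by
      have h5 : (h * a)⁻¹ * z.1 * (h * a) = a⁻¹ * (h⁻¹ * z.1 * h) * a := by group
      rw [h5, ← hk1]
      group
    rw [h4]
    exact hk
  · have h3 : (h * a) o = x := by rw [Tr.mul_app, hx]
    rw [Tr.mul_app, Tr.mul_app, h3, z.2.2]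
    nth_rewrite 1 [← h3]
    rw [Tr.inv_app]
  · intro z z' hz
    have h3 := congrArg Subtype.val hz
    have h4 : (h * a)⁻¹ * z.1 * (h * a) = (h * a)⁻¹ * z'.1 * (h * a) := h3
    exact Subtype.ext (mul_left_cancel (mul_right_cancel h4))

end crit

end Pool.Agent.Work.MP_6d7bb4.h65
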