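import Pool.Agent.Work.MP_6d7bb4_h65.Fam

/-! # MP_6d7bb4: derived subgroups (helper65) -/

set_option autoImplicit false
set_option linter.unusedSectionVars false

namespace Pool.Agent.Work.MP_6d7bb4.h65

open MulAction Pool.Agent.Work.MP_6d7bb4.helper94
open scoped commutatorElement

section der
variable {G : Type*} [Group G]

/-- iterated derived subgroups -/
def Ds : ℕ → Subgroup G → Subgroup G
  | 0, Q => Q
  | n + 1, Q => ⁅Ds n Q, Ds n Q⁆

theorem Ds_zero (Q : Subgroup G) : Ds 0 Q = Q := rfl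

theorem Ds_succ (n : ℕ) (Q : Subgroup G) : Ds (n + 1) Q = ⁅Ds n Q, Ds n Q⁆ := rfl

theorem Ds_mono (n : ℕ) {Q Q' : Subgroup G} (h : Q ≤ Q') : Ds n Q ≤ Ds n Q' := by
  induction n with
  | zero => exact h
  | succ n ih => exact Subgroup.commutator_mono ih ih

theorem Ds_succ_le (n : ℕ) (Q : Subgroup G) : Ds (n + 1) Q ≤ Ds n Q := by
  rw [Ds_succ, Subgroup.commutator_le]
  intro x hx y hy
  rw [commutatorElement_def]
  exact mul_mem (mul_mem (mul_mem hx hy) (inv_mem hx)) (inv_mem hy)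

theorem Ds_le (n : ℕ) (Q : Subgroup G) : Ds n Q ≤ Q := by
  induction n with
  | zero => exact le_refl _
  | succ n ih => exact (Ds_succ_le n Q).trans ih

theorem cj_eq_map (g : G) (S : Subgroup G) : cj g S = S.map (MulAut.conj g).toMonoidHom := by
  ext z
  rw [mem_cj]
  constructor
  · intro hz
    refine ⟨_, hz, ?_⟩
    show g * (g⁻¹ * z * g) * g⁻¹ = z
    group
  · rintro ⟨y, hy, rfl⟩
    have e : g⁻¹ * ((MulAut.conj g).toMonoidHom y) * g = y := by
      show g⁻¹ * (g * y * g⁻¹) * g = y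
      group
    rw [e]
    exact hy

theorem Ds_cj (n : ℕ) (g : G) (Q : Subgroup G) : Ds n (cj g Q) = cj g (Ds n Q) := by
  induction n with
  | zero => rfl
  | succ n ih =>
    rw [Ds_succ, Ds_succ, ih, cj_eq_map, cj_eq_map, Subgroup.map_commutator]

theorem Ds_eq (n : ℕ) (Q : Subgroup G) : Ds n Q = (derivedSeries Q n).map Q.subtype := by
  induction n with
  | zero =>
    rw [Ds_zero, derivedSeries_zero, ← MonoidHom.range_eq_map, Subgroup.range_subtype]
  | succ n ih =>
    rw [Ds_succ, derivedSeries_succ, Subgroup.map_commutator, ← ih]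

theorem Ds_comm {n : ℕ} {Q : Subgroup G} {a t : G} (ha : a ∈ Ds n Q) (ht : t ∈ Ds n Q) :
    a⁻¹ * t⁻¹ * a * t ∈ Ds (n + 1) Q := by
  rw [Ds_succ]
  have h := Subgroup.commutator_mem_commutator (inv_mem ha) (inv_mem ht)
  rw [commutatorElement_def, inv_inv, inv_inv] at h
  exact h

end der

section fams
variable {V G : Type*} [Group G] [MulAction G V] {Γ : SimpleGraph V} {d p : ℕ} [Fact p.Prime]

theorem fam_Ds (h : Loc G Γ d) (l : ℕ) {s0 : ℕ} (hs0 : 1 ≤ s0) :
    Fam G Γ p s0 (fun s x => Ds l (Nb Γ p s x)) where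
  cj := by
    intro s g x
    show Ds l (Nb Γ p s (g • x)) = cj g (Ds l (Nb Γ p s x))
    rw [Nb_cj h, Ds_cj]
  le := fun s x => (Ds_le l _).trans (Nb_le_st s x)
  anti := fun s x => Ds_mono l (Nb_anti h (Nat.le_succ s) x)
  adj := fun s hs x y hxy => Ds_mono l (Nb_adj h (hs0.trans hs) hxy)
  isP := fun s x => (Nb_isP h s x).to_le (Ds_le l _)

end fams

end Pool.Agent.Work.MP_6d7bb4.h65
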