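import Pool.Agent.Work.MP_6d7bb4_h65.Ball

/-! # MP_6d7bb4: families of `p`-groups, growth of centres (helper65) -/

set_option autoImplicit false
set_option linter.unusedSectionVars false

namespace Pool.Agent.Work.MP_6d7bb4.h65

open MulAction Pool.Agent.Work.MP_6d7bb4.helper94

section fam
variable {V G : Type*} [Group G] [MulAction G V] {Γ : SimpleGraph V} {d : ℕ}

variable (G) in
/-- a decreasing family of `p`-subgroups of the vertex stabilisers -/
structure Fam (Γ : SimpleGraph V) (p s0 : ℕ) (M : ℕ → V → Subgroup G) : Prop where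
  cj : ∀ s (g : G) x, M s (g • x) = cj g (M s x)
  le : ∀ s x, M s x ≤ stabilizer G x
  anti : ∀ s x, M (s + 1) x ≤ M s x
  adj : ∀ s, s0 ≤ s → ∀ x y, Γ.Adj x y → M (s + 1) x ≤ M s y
  isP : ∀ s x, IsPGroup p (M s x)

variable {p s0 : ℕ} {M : ℕ → V → Subgroup G}

theorem Fam.anti' (hM : Fam G Γ p s0 M) {s t : ℕ} (hst : s ≤ t) (x : V) : M t x ≤ M s x := by
  obtain ⟨k, rfl⟩ := Nat.exists_eq_add_of_le hst
  induction k with
  | zero => exact le_refl _
  | succ k ih => exact (hM.anti _ x).trans (ih (by omega))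

theorem Fam.nm (hM : Fam G Γ p s0 M) (s : ℕ) (x : V) : Nm (stabilizer G x) (M s x) :=
  nm_of_equiv (hM.cj s) x

/-- elements of order `p` of `M t x` which are central in `M s x` -/
def AA (p : ℕ) (M : ℕ → V → Subgroup G) (s t : ℕ) (x : V) : Subgroup G := OZ p (M s x) ⊓ M t x

theorem cj_inf (g : G) (S T : Subgroup G) : cj g (S ⊓ T) = cj g S ⊓ cj g T := by
  ext z
  rw [mem_cj, Subgroup.mem_inf, Subgroup.mem_inf, mem_cj, mem_cj]

theorem AA_cj (hM : Fam G Γ p s0 M) (s t : ℕ) (g : G) (x : V) :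
    AA p M s t (g • x) = cj g (AA p M s t x) := by
  unfold AA
  rw [hM.cj, hM.cj, OZ_cj, cj_inf]

theorem AA_adj (hM : Fam G Γ p s0 M) {s t : ℕ} (hs : s0 ≤ s) (hst : s + 1 ≤ t) {x y : V}
    (hxy : Γ.Adj x y) : AA p M s (t + 1) y ≤ AA p M (s + 1) t x := by
  rintro z ⟨⟨_, hz2, hz3⟩, hz4⟩
  have h1 : z ∈ M t x := hM.adj t (by omega) y x hxy.symm hz4
  exact ⟨⟨hM.anti' hst x h1, hz2, fun q hq => hz3 q (hM.adj s hs x y hxy hq)⟩, h1⟩

theorem AA_self (hM : Fam G Γ p s0 M) {s t : ℕ} (hst : s + 1 ≤ t) (x : V) :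
    AA p M s (t + 1) x ≤ AA p M (s + 1) t x := by
  rintro z ⟨⟨_, hz2, hz3⟩, hz4⟩
  have h1 : z ∈ M t x := hM.anti t x hz4
  exact ⟨⟨hM.anti' hst x h1, hz2, fun q hq => hz3 q (hM.anti s x hq)⟩, h1⟩

theorem AA_ne [Fact p.Prime] (h : Loc G Γ d) (hM : Fam G Γ p s0 M) {s t : ℕ} (hst : s ≤ t)
    {x : V} (hne : M t x ≠ ⊥) : AA p M s t x ≠ ⊥ := by
  have := h.fin_le (hM.le s x)
  obtain ⟨z, hz, hz1, hzp, hzc⟩ := exists_central (hM.isP s x) (hM.anti' hst x) hne
    ((hM.nm t x).mono (hM.le s x))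
  intro h1
  have h2 : z ∈ AA p M s t x := ⟨⟨hM.anti' hst x hz, hzp, hzc⟩, hz⟩
  rw [h1, Subgroup.mem_bot] at h2
  exact hz1 h2

theorem card_cj (g : G) (S : Subgroup G) : Nat.card (cj g S) = Nat.card S := by
  refine Nat.card_congr ⟨fun z => ⟨g⁻¹ * z.1 * g, mem_cj.mp z.2⟩,
    fun z => ⟨g * z.1 * g⁻¹, conj_mem_cj z.2⟩, ?_, ?_⟩
  · intro z
    apply Subtype.ext
    show g * (g⁻¹ * z.1 * g) * g⁻¹ = z.1
    group
  · intro z
    apply Subtype.ext
    show g⁻¹ * (g * z.1 * g⁻¹) * g = z.1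
    group

theorem eq_of_card {A B : Subgroup G} (hB : Finite B) (hle : A ≤ B)
    (hc : Nat.card B ≤ Nat.card A) : A = B := by
  have h1 : (A : Set G) = (B : Set G) :=
    Set.Finite.eq_of_subset_of_card_le (Set.toFinite (B : Set G)) hle hc
  exact SetLike.coe_injective h1

/-- a proper subgroup of a finite `p`-group has index at least `p` -/
theorem card_p {A B : Subgroup G} {p : ℕ} (hp : p.Prime) (hB : Finite B) (hP : IsPGroup p B)
    (hle : A ≤ B) (hne : A ≠ B) : p * Nat.card A ≤ Nat.card B := by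
  have : Fact p.Prime := ⟨hp⟩
  have h1 := Subgroup.relIndex_mul_relIndex ⊥ A B bot_le hle
  rw [Subgroup.relIndex_bot_left, Subgroup.relIndex_bot_left] at h1
  have h2 : A.relIndex B ≠ 1 := by
    rw [Ne, Subgroup.relIndex_eq_one]
    exact fun h => hne (le_antisymm hle h)
  obtain ⟨k, hk⟩ := IsPGroup.iff_card.mp hP
  have h3 : A.relIndex B ∣ p ^ k := by
    rw [← hk, ← h1]
    exact Dvd.intro_left _ rfl
  obtain ⟨j, _, hj⟩ := (Nat.dvd_prime_pow hp).mp h3
  have hj0 : j ≠ 0 := by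
    rintro rfl
    rw [pow_zero] at hj
    exact h2 hj
  have h4 : p ≤ A.relIndex B := by
    rw [hj]
    exact Nat.le_self_pow hj0 p
  rw [← h1, mul_comm]
  exact Nat.mul_le_mul_left _ h4

theorem AA_le_st (hM : Fam G Γ p s0 M) (s t : ℕ) (x : V) : AA p M s t x ≤ stabilizer G x :=
  inf_le_right.trans (hM.le t x)

theorem AA_isP (hM : Fam G Γ p s0 M) (s t : ℕ) (x : V) : IsPGroup p (AA p M s t x) :=
  (hM.isP t x).to_le inf_le_right

/-- a family of subgroups which takes the same value at adjacent vertices is trivial -/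
theorem fam_bot (h : Loc G Γ d) {D : V → Subgroup G} (hD : ∀ (g : G) x, D (g • x) = cj g (D x))
    (hDs : ∀ x, D x ≤ stabilizer G x) {x y : V} (hxy : Γ.Adj x y) (he : D y = D x) :
    D x = ⊥ := by
  obtain ⟨σ, h1, h2⟩ := h.inv hxy
  refine P1 h hxy (hDs x) (nm_of_equiv hD x) h1 h2 ?_
  intro n hn
  have h4 := conj_mem_cj (g := σ) hn
  rw [← hD, h1, he] at h4
  exact h4

theorem AA_strict [Fact p.Prime] (h : Loc G Γ d) (hM : Fam G Γ p s0 M) {s t : ℕ} (hs : s0 ≤ s)
    (hst : s + 1 ≤ t) {x y : V} (hxy : Γ.Adj x y) (hne : M (t + 1) x ≠ ⊥) :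
    p * (p * Nat.card (AA p M s (t + 1) x)) ≤ Nat.card (AA p M (s + 1) t x) := by
  have hp : p.Prime := Fact.out
  have hf : ∀ s t x, Finite (AA p M s t x) := fun s t x => h.fin_le (AA_le_st hM s t x)
  have hcY : Nat.card (AA p M s (t + 1) y) = Nat.card (AA p M s (t + 1) x) := by
    obtain ⟨σ, h1, h2⟩ := h.inv hxy
    rw [← h1, AA_cj hM, card_cj]
  have hcX : Nat.card (AA p M (s + 1) t y) = Nat.card (AA p M (s + 1) t x) := by
    obtain ⟨σ, h1, h2⟩ := h.inv hxy
    rw [← h1, AA_cj hM, card_cj]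
  have hYX := AA_self hM hst x
  have hY'X := AA_adj hM hs hst hxy
  have hYX' := AA_adj hM hs hst hxy.symm
  have hY'X' := AA_self hM hst y
  have hY0 := AA_ne h hM (s := s) (by omega) hne
  -- the values at `x` and `y` differ
  have h1 : AA p M s (t + 1) y ≠ AA p M s (t + 1) x := fun he =>
    hY0 (fam_bot h (AA_cj hM s (t + 1)) (AA_le_st hM s (t + 1)) hxy he)
  have h2 : AA p M (s + 1) t y ≠ AA p M (s + 1) t x := by
    intro he
    apply hY0
    rw [eq_bot_iff, ← fam_bot h (AA_cj hM (s + 1) t) (AA_le_st hM (s + 1) t) hxy he]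
    exact hYX
  obtain ⟨W, hW⟩ : ∃ W : Subgroup G, W = AA p M s (t + 1) x ⊔ AA p M s (t + 1) y := ⟨_, rfl⟩
  have hWX : W ≤ AA p M (s + 1) t x := by
    rw [hW]
    exact sup_le hYX hY'X
  have hWX' : W ≤ AA p M (s + 1) t y := by
    rw [hW]
    exact sup_le hYX' hY'X'
  have hWf : Finite W := h.fin_le (hWX.trans (AA_le_st hM _ _ x))
  have h3 : p * Nat.card (AA p M s (t + 1) x) ≤ Nat.card W := by
    refine card_p hp hWf ((AA_isP hM _ _ x).to_le hWX) (by rw [hW]; exact le_sup_left) ?_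
    intro he
    apply h1
    refine eq_of_card (hf _ _ _) ?_ hcY.ge
    rw [he, hW]
    exact le_sup_right
  have h4 : W ≠ AA p M (s + 1) t x := by
    intro he
    apply h2
    rw [← he]
    refine (eq_of_card (hf _ _ _) hWX' ?_).symm
    rw [he, hcX]
  have h5 := card_p hp (hf _ _ _) (AA_isP hM _ _ x) hWX h4
  exact (Nat.mul_le_mul_left p h3).trans h5

/-- THE GROWTH LEMMA -/
theorem growth [Fact p.Prime] (h : Loc G Γ d) (hM : Fam G Γ p s0 M) {i t : ℕ} {x y : V}
    (hxy : Γ.Adj x y) (hit : s0 + i ≤ t) (hne : M (t + i) x ≠ ⊥) :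
    p ^ (2 * i + 1) ≤ Nat.card (AA p M (s0 + i) t x) := by
  have hp : p.Prime := Fact.out
  have hnet : ∀ u, u ≤ t + i → M u x ≠ ⊥ := by
    intro u hu h1
    apply hne
    rw [eq_bot_iff, ← h1]
    exact hM.anti' hu x
  have key : ∀ j, j ≤ i → p ^ (2 * j + 1) ≤ Nat.card (AA p M (s0 + j) (t + i - j) x) := by
    intro j
    induction j with
    | zero =>
      intro _
      have h1 := AA_ne h hM (s := s0) (t := t + i) (by omega) (hnet _ (le_refl _))
      have hf : Finite (AA p M s0 (t + i) x) := h.fin_le (AA_le_st hM _ _ x)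
      have h2 := card_p (A := ⊥) hp hf (AA_isP hM _ _ x) bot_le h1.symm
      rw [Subgroup.card_bot, mul_one] at h2
      simpa using h2
    | succ j ih =>
      intro hj
      have h1 := ih (by omega)
      obtain ⟨u, hu⟩ : ∃ u, t + i - j = u + 1 := ⟨t + i - j - 1, by omega⟩
      have h2 := AA_strict h hM (s := s0 + j) (t := u) (by omega) (by omega) hxy
        (hnet _ (by omega))
      rw [hu] at h1
      have e1 : t + i - (j + 1) = u := by omega
      have e2 : s0 + (j + 1) = s0 + j + 1 := by omega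
      have e3 : p ^ (2 * (j + 1) + 1) = p * (p * p ^ (2 * j + 1)) := by ring
      rw [e1, e2, e3]
      exact (Nat.mul_le_mul_left p (Nat.mul_le_mul_left p h1)).trans h2
  have h1 := key i (le_refl i)
  rwa [Nat.add_sub_cancel] at h1

end fam

end Pool.Agent.Work.MP_6d7bb4.h65
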