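import Pool.Agent.Work.MP_6d7bb4_h65.Sol
import Pool.Agent.Work.MP_6d7bb4_helper94.Main

/-! # MP_6d7bb4: the faithful radius (helper65) -/

set_option autoImplicit false
set_option linter.unusedSectionVars false

namespace Pool.Agent.Work.MP_6d7bb4.h65

open MulAction Pool.Agent.Work.MP_6d7bb4.helper94
open scoped commutatorElement

section fin
variable {V G : Type*} [Group G] [MulAction G V] {Γ : SimpleGraph V} {d : ℕ}

/-- the elements of order `p` of the `l`-th derived subgroup of `N_t(x)` which centralise the one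
of `N_s(x)` -/
def EE (Γ : SimpleGraph V) (p l s t : ℕ) (x : V) : Subgroup G :=
  AA p (fun s x => Ds l (Nb Γ p s x)) s t x

/-- the growth lemma and the theorem on the derived length -/
theorem Nb_zero {p : ℕ} [Fact p.Prime] (h : Loc G Γ d) {x y : V} (hxy : Γ.Adj x y) {s l t : ℕ}
    (hs : 1 ≤ s) (hst : s ≤ t) (hC : ∀ x, Nat.card (EE Γ p l s t x : Subgroup G) < p ^ (2 * s - 1))
    (v : V) : (Nb Γ p (cc l (t + s - 1)) v : Subgroup G) = ⊥ := by
  refine sol_main h hxy l (t + s - 1) (CC l (t + s - 1)) (by omega) (le_refl _) ?_ v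
  intro u
  obtain ⟨g, rfl⟩ := vtr h hxy u
  have h2 : (LL Γ p l (t + s - 1) (g • x) : Subgroup G) = ⊥ := by
    by_contra hne
    have h1 := growth h (fam_Ds (p := p) (s0 := 1) h l (le_refl 1)) (i := s - 1) (t := t)
      (h.adj g _ _ hxy) (by omega) (by
        rw [← Nat.add_sub_assoc hs]
        exact hne)
    have h3 := hC (g • x)
    have e1 : 2 * (s - 1) + 1 = 2 * s - 1 := by omega
    have e2 : 1 + (s - 1) = s := by omega
    rw [e1, e2] at h1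
    exact absurd h1 (not_le.mpr h3)
  rw [h2]
  exact bot_le

/-- the action on two balls is faithful -/
theorem Wr_zero (h : Loc G Γ d) {x y : V} (hxy : Γ.Adj x y) {k : ℕ}
    (hN : ∀ p : ℕ, p.Prime → ∀ v, (Nb Γ p k v : Subgroup G) = ⊥) :
    (Wr Γ (k + 1) x y : Subgroup G) = ⊥ := by
  by_contra hne
  have := h.finB x y
  obtain ⟨L, hL, hLne, hsn, hmin⟩ := exists_min (Wr_le _ x y) (nm_Wr h _ x y) hne
  have : Finite L := h.fin_le ((hL.trans (Wr_le _ x y)).trans (B_le x y))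
  rcases min_cases hLne hmin with hper | ⟨p, hp, hpL⟩
  · exact no_perf h hxy (by omega) hL hLne hsn hmin hper
  · have : Fact p.Prime := ⟨hp⟩
    have h1 : L ≤ Wb Γ (k + 1) x := by
      intro g hg v hv
      exact hL hg v (Or.inl hv)
    have h2 : (Wb Γ (k + 1) x : Subgroup G) ≤ B x y :=
      le_inf (Wb_le_st _ x) (Wb_le_st' (by omega) hxy)
    have hf := finWb h (k + 1) x
    have h3 : L ≤ Nb Γ p (k + 1) x := (hsn.restrict h2 h1).isP_le hpL
    have h4 := h3.trans (Nb_anti h (Nat.le_succ _) x)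
    rw [hN p hp x, le_bot_iff] at h4
    exact hLne h4

theorem Wb_zero (h : Loc G Γ d) {x y : V} (hxy : Γ.Adj x y) {k : ℕ}
    (hN : ∀ p : ℕ, p.Prime → ∀ v, (Nb Γ p k v : Subgroup G) = ⊥) (v : V) :
    (Wb Γ (k + 2) v : Subgroup G) = ⊥ := by
  obtain ⟨g, rfl⟩ := vtr h hxy v
  rw [eq_bot_iff, ← Wr_zero h (h.adj g _ _ hxy) hN]
  intro k hk u hu
  refine hk u ?_
  rcases hu with hu | hu
  · omega
  · have h1 := h.conn.dist_triangle (u := g • x) (v := g • y) (w := u)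
    rw [SimpleGraph.dist_eq_one_iff_adj.mpr (h.adj g _ _ hxy)] at h1
    omega

end fin

section amb
variable {V : Type*} {Γ : SimpleGraph V} {Ω : Type*}

theorem Ds_map {G G' : Type*} [Group G] [Group G'] (f : G →* G') (n : ℕ) (Q : Subgroup G) :
    Ds n (Q.map f) = (Ds n Q).map f := by
  induction n with
  | zero => rfl
  | succ n ih => rw [Ds_succ, Ds_succ, ih, Subgroup.map_commutator]

/-- the largest normal `p`-subgroup of `H_x` fixing the ball of radius `s`, as a subgroup of the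
automorphism group -/
def core (Γ : SimpleGraph V) (H : Subgroup (Γ ≃g Γ)) (p s : ℕ) (x : V) : Subgroup (Γ ≃g Γ) :=
  (Nb Γ p s x : Subgroup H).map H.subtype

theorem core_spec {H : Subgroup (Γ ≃g Γ)} {d p : ℕ} (hp : p.Prime) (h : Loc H Γ d) (s : ℕ)
    (x : V) : (core Γ H p s x ≤ H ∧ IsPGroup p (core Γ H p s x) ∧
      (∀ g ∈ core Γ H p s x, ∀ v, Γ.dist x v ≤ s → g v = v) ∧
      ∀ k ∈ H, k x = x → ∀ g ∈ core Γ H p s x, k * g * k⁻¹ ∈ core Γ H p s x) ∧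
    ∀ P : Subgroup (Γ ≃g Γ), (P ≤ H ∧ IsPGroup p P ∧
      (∀ g ∈ P, ∀ v, Γ.dist x v ≤ s → g v = v) ∧
      ∀ k ∈ H, k x = x → ∀ g ∈ P, k * g * k⁻¹ ∈ P) → P ≤ core Γ H p s x := by
  have : Fact p.Prime := ⟨hp⟩
  constructor
  · refine ⟨?_, (Nb_isP h s x).map _, ?_, ?_⟩
    · rintro _ ⟨g, _, rfl⟩
      exact g.2
    · rintro _ ⟨g, hg, rfl⟩ v hv
      exact Nb_le s x hg v hv
    · rintro k hk hkx _ ⟨g, hg, rfl⟩
      exact ⟨⟨k, hk⟩ * g * ⟨k, hk⟩⁻¹, nm_Nb h s x ⟨k, hk⟩ hkx g hg, rfl⟩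
  · rintro P ⟨h1, h2, h3, h4⟩ g hg
    refine ⟨⟨g, h1 hg⟩, ?_, rfl⟩
    obtain ⟨P', hP'⟩ : ∃ P' : Subgroup H, P' = P.subgroupOf H := ⟨_, rfl⟩
    have h5 : P' ≤ Nb Γ p s x := by
      refine le_Nb ?_ ?_ ?_
      · intro k hk v hv
        rw [hP', Subgroup.mem_subgroupOf] at hk
        exact h3 k.1 hk v hv
      · intro a ha k hk
        rw [hP', Subgroup.mem_subgroupOf] at hk ⊢
        exact h4 a.1 a.2 (Wb_le_st s x ha) k.1 hk
      · rw [hP']
        exact h2.comap_of_injective H.subtype (Subgroup.subtype_injective H)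
    apply h5
    rw [hP', Subgroup.mem_subgroupOf]
    exact hg

/-- the ambient form of `EE` -/
theorem EE_map {H : Subgroup (Γ ≃g Γ)} {d p : ℕ} (hp : p.Prime) (h : Loc H Γ d) {l s t : ℕ}
    (hst : s ≤ t) (x : V) (z : Γ ≃g Γ) :
    z ∈ (EE Γ p l s t x : Subgroup H).map H.subtype ↔
      z ∈ (derivedSeries (core Γ H p t x) l).map (core Γ H p t x).subtype ∧ z ^ p = 1 ∧
        ∀ g ∈ (derivedSeries (core Γ H p s x) l).map (core Γ H p s x).subtype, g * z = z * g := by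
  have : Fact p.Prime := ⟨hp⟩
  rw [← Ds_eq, ← Ds_eq]
  have e : ∀ s, Ds l (core Γ H p s x) = (Ds l (Nb Γ p s x : Subgroup H)).map H.subtype :=
    fun s => Ds_map _ l _
  rw [e, e]
  constructor
  · rintro ⟨a, ⟨⟨h1, h2, h3⟩, h4⟩, rfl⟩
    refine ⟨⟨a, h4, rfl⟩, ?_, ?_⟩
    · rw [← map_pow, h2, map_one]
    · rintro _ ⟨b, hb, rfl⟩
      rw [← map_mul, ← map_mul, h3 b hb]
  · rintro ⟨⟨a, ha, rfl⟩, h2, h3⟩
    refine ⟨a, ⟨⟨Ds_mono l (Nb_anti h hst x) ha, ?_, ?_⟩, ha⟩, rfl⟩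
    · rw [← map_pow] at h2
      exact Subtype.ext h2
    · intro q hq
      have h4 := h3 _ ⟨q, hq, rfl⟩
      rw [← map_mul, ← map_mul] at h4
      exact Subtype.ext h4

theorem EE_card {H : Subgroup (Γ ≃g Γ)} {p l s t : ℕ} (x : V) :
    Nat.card ((EE Γ p l s t x : Subgroup H).map H.subtype) =
      Nat.card (EE Γ p l s t x : Subgroup H) :=
  (Nat.card_congr (Subgroup.equivMapOfInjective _ H.subtype
    (Subgroup.subtype_injective H)).toEquiv).symm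

/-- `H` acts transitively on the arcs -/
theorem loc_H [Fintype Ω] {F : Subgroup (Equiv.Perm Ω)} {H : Subgroup (Γ ≃g Γ)}
    (hF1 : ∀ a b : Ω, ∃ σ ∈ F, σ a = b)
    (hF2 : ∀ N : Subgroup (Equiv.Perm Ω), N ≤ F →
        (∀ f ∈ F, ∀ n ∈ N, f * n * f⁻¹ ∈ N) →
        ((∀ a b : Ω, ∃ σ ∈ N, σ a = b) ∨ (∀ σ ∈ N, ∀ a : Ω, σ a = a → σ = 1)))
    (hc : Γ.Connected) (h1 : ∀ v : V, {g : Γ ≃g Γ | g ∈ H ∧ g v = v}.Finite)
    (h2 : ∀ x : V, ∃ e : Γ.neighborSet x ≃ Ω, LA Γ H F x e)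
    {g : Γ ≃g Γ} (hg : g ∈ H) {x y : V} (hxy : Γ.Adj x y) (e1 : g x = y) (e2 : g y = x) :
    Loc H Γ (Fintype.card Ω) := by
  have harc := arc_of_inv hc (fun x y y' hy hy' => loc_tr hF1 h2 hy hy') hxy hg e1 e2
  refine loc_of hF2 hc h1 h2 ?_
  intro u v u' v' h4 h5
  obtain ⟨k, hk, e4, e5⟩ := harc u v h4
  obtain ⟨k', hk', e6, e7⟩ := harc u' v' h5
  refine ⟨k' * k⁻¹, H.mul_mem hk' (H.inv_mem hk), ?_, ?_⟩
  · rw [Tr.mul_app, ← e4, Tr.inv_app, e6]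
  · rw [Tr.mul_app, ← e5, Tr.inv_app, e7]

/-- the faithful radius -/
def RR (s t l : ℕ) : ℕ := cc l (t + s - 1) + 2

theorem radius {H : Subgroup (Γ ≃g Γ)} {d : ℕ} (h : Loc H Γ d) {x y : V} (hxy : Γ.Adj x y)
    {s t l : ℕ} (hs : 1 ≤ s) (hst : s ≤ t)
    (hC : ∀ p : ℕ, p.Prime → ∀ x, Nat.card (EE Γ p l s t x : Subgroup H) < p ^ (2 * s - 1))
    (o : V) {k : Γ ≃g Γ} (hk : k ∈ H) (hk1 : ∀ v, Γ.dist o v ≤ RR s t l → k v = v) : k = 1 := by
  have h3 := Wb_zero h hxy (k := cc l (t + s - 1)) (fun p hp v => by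
    have : Fact p.Prime := ⟨hp⟩
    exact Nb_zero h hxy hs hst (hC p hp) v) o
  have h4 : (⟨k, hk⟩ : H) ∈ (Wb Γ (cc l (t + s - 1) + 2) o : Subgroup H) := hk1
  rw [h3, Subgroup.mem_bot] at h4
  exact congrArg Subtype.val h4

end amb

end Pool.Agent.Work.MP_6d7bb4.h65
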