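import Mathlib

set_option autoImplicit false

/-! # MP_6d7bb4: growth of centres; definitions (helper65) -/

namespace Pool.Agent.Work.MP_6d7bb4_h65.Growth


/-- `F` is semiprimitive: it is transitive, and every normal subgroup is transitive or semiregular -/
def Semiprimitive {Ω : Type} (F : Subgroup (Equiv.Perm Ω)) : Prop :=
  (∀ a b : Ω, ∃ σ ∈ F, σ a = b) ∧
    ∀ N : Subgroup (Equiv.Perm Ω), N ≤ F →
      (∀ f ∈ F, ∀ n ∈ N, f * n * f⁻¹ ∈ N) →
      ((∀ a b : Ω, ∃ σ ∈ N, σ a = b) ∨ (∀ σ ∈ N, ∀ a : Ω, σ a = a → σ = 1))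

/-- `H` is discrete and acts locally like `F` -/
def DiscreteLocally {Ω V : Type} (Γ : SimpleGraph V) (F : Subgroup (Equiv.Perm Ω))
    (H : Subgroup (Γ ≃g Γ)) : Prop :=
  (∀ v : V, {g : Γ ≃g Γ | g ∈ H ∧ g v = v}.Finite) ∧
    ∀ x : V, ∃ e : Γ.neighborSet x ≃ Ω, ∀ σ : Equiv.Perm Ω,
      σ ∈ F ↔ ∃ g ∈ H, g x = x ∧
        ∀ y : Γ.neighborSet x, g (y : V) = ((e.symm (σ (e y)) : Γ.neighborSet x) : V)

/-- `H` contains an inversion -/
def Inversion {V : Type} (Γ : SimpleGraph V) (H : Subgroup (Γ ≃g Γ)) : Prop :=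
  ∃ g ∈ H, ∃ x y : V, Γ.Adj x y ∧ g x = y ∧ g y = x

/-- `H` contains an involutive inversion -/
def InvolutiveInversion {V : Type} (Γ : SimpleGraph V) (H : Subgroup (Γ ≃g Γ)) : Prop :=
  ∃ g ∈ H, ∃ x y : V, Γ.Adj x y ∧ g x = y ∧ g y = x ∧ g * g = 1

/-- An element of `H` which fixes a ball of radius `R` pointwise is trivial -/
def Faithful {V : Type} (Γ : SimpleGraph V) (H : Subgroup (Γ ≃g Γ)) (R : ℕ) : Prop :=
  ∀ x : V, ∀ h ∈ H, (∀ v, Γ.dist x v ≤ R → h v = v) → h = 1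

/-- Finitely many subgroups represent all the subgroups with the property `Q` up to conjugacy -/
def FinitelyManyClasses {V : Type} (Γ : SimpleGraph V) (Q : Subgroup (Γ ≃g Γ) → Prop) : Prop :=
  ∃ S : Finset (Subgroup (Γ ≃g Γ)), ∀ H : Subgroup (Γ ≃g Γ), Q H →
    ∃ K ∈ S, ∃ a : Γ ≃g Γ, H = K.map (MulAut.conj a).toMonoidHom

/-- `P` is a normal `p`-subgroup of the stabiliser `H_x` which fixes the ball `B(x, s)` pointwise -/
def NormalP {V : Type} (Γ : SimpleGraph V) (H : Subgroup (Γ ≃g Γ)) (s p : ℕ) (x : V)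
    (P : Subgroup (Γ ≃g Γ)) : Prop :=
  P ≤ H ∧ IsPGroup p P ∧ (∀ g ∈ P, ∀ v, Γ.dist x v ≤ s → g v = v) ∧
    ∀ k ∈ H, k x = x → ∀ g ∈ P, k * g * k⁻¹ ∈ P

/-- `P` is the largest normal `p`-subgroup of `H_x` which fixes the ball `B(x, s)` pointwise -/
def Core {V : Type} (Γ : SimpleGraph V) (H : Subgroup (Γ ≃g Γ)) (s p : ℕ) (x : V)
    (P : Subgroup (Γ ≃g Γ)) : Prop :=
  NormalP Γ H s p x P ∧ ∀ P' : Subgroup (Γ ≃g Γ), NormalP Γ H s p x P' → P' ≤ P

/-- the `l`-th derived subgroup of `P` -/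
def derived {G : Type} [Group G] (P : Subgroup G) (l : ℕ) : Subgroup G :=
  (derivedSeries P l).map P.subtype

/-- The elements of order `1` or `p` of the `l`-th derived subgroup of `N_t(x)` which centralise the
`l`-th derived subgroup of `N_s(x)` form a group of order less than `p ^ (2s - 1)`, for all vertices
`x` and primes `p`. (These elements form a group; its order is the largest order of a subgroup `E`
contained in it.) -/
def SmallCentres {V : Type} (Γ : SimpleGraph V) (H : Subgroup (Γ ≃g Γ)) (l s t : ℕ) : Prop :=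
  ∀ (x : V) (p : ℕ), p.Prime → ∀ P Q : Subgroup (Γ ≃g Γ), Core Γ H s p x P → Core Γ H t p x Q →
    ∀ E : Subgroup (Γ ≃g Γ),
      (∀ z ∈ E, z ∈ derived Q l ∧ z ^ p = 1 ∧ ∀ g ∈ derived P l, g * z = z * g) →
      Nat.card E < p ^ (2 * s - 1)

/-- `E` is an elementary abelian `p`-group -/
def ElemAb {G : Type} [Group G] (p : ℕ) (E : Subgroup G) : Prop :=
  (∀ a ∈ E, a ^ p = 1) ∧ ∀ a ∈ E, ∀ b ∈ E, a * b = b * a

/-- For every vertex `x` the pointwise stabiliser in `H` of the ball `B(x, s)` is isomorphic to a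
subgroup of `GL_n(K)` for some field `K` -/
def Linear {V : Type} (Γ : SimpleGraph V) (H : Subgroup (Γ ≃g Γ)) (s n : ℕ) : Prop :=
  ∀ x : V, ∃ B : Subgroup (Γ ≃g Γ), (∀ g, g ∈ B ↔ g ∈ H ∧ ∀ v, Γ.dist x v ≤ s → g v = v) ∧
    ∃ (K : Type) (_ : Field K) (ρ : B →* GL (Fin n) K), Function.Injective ρ

end Pool.Agent.Work.MP_6d7bb4_h65.Growth
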