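import Pool.Agent.Work.MP_6d7bb4_h65.Crit
import Pool.Agent.Work.MP_6d7bb4_h65.GrowthDefs

set_option autoImplicit false

/-! # MP_6d7bb4: growth of centres; the four parts (helper65) -/

namespace Pool.Agent.Work.MP_6d7bb4_h65.Growth

theorem part1 (l s t : ℕ) (hs : 1 ≤ s) (hst : s ≤ t) : ∃ R : ℕ, (l = 0 → R = s + t + 1) ∧
    ∀ (Ω : Type) [Fintype Ω] (F : Subgroup (Equiv.Perm Ω)), Semiprimitive F →
    ∀ (V : Type) (Γ : SimpleGraph V), Γ.IsTree → (∀ v : V, Nonempty (Γ.neighborSet v ≃ Ω)) →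
      (∀ H : Subgroup (Γ ≃g Γ), DiscreteLocally Γ F H → Inversion Γ H → SmallCentres Γ H l s t →
        Faithful Γ H R) ∧
      FinitelyManyClasses Γ (fun H => DiscreteLocally Γ F H ∧ InvolutiveInversion Γ H ∧
        SmallCentres Γ H l s t) := by
  refine ⟨Pool.Agent.Work.MP_6d7bb4.h65.RR s t l, ?_, ?_⟩
  · rintro rfl
    show t + s - 1 + 2 = s + t + 1
    omega
  intro Ω _ F hF V Γ hT hreg
  have h1 : ∀ H : Subgroup (Γ ≃g Γ), DiscreteLocally Γ F H → Inversion Γ H →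
      SmallCentres Γ H l s t → Faithful Γ H (Pool.Agent.Work.MP_6d7bb4.h65.RR s t l) := by
    rintro H ⟨h1, h2⟩ ⟨g, hg, x, y, hxy, e1, e2⟩ hC o k hk hk1
    have hL := Pool.Agent.Work.MP_6d7bb4.h65.loc_H hF.1 hF.2 hT.connected h1 h2 hg hxy e1 e2
    refine Pool.Agent.Work.MP_6d7bb4.h65.radius hL hxy hs hst ?_ o hk hk1
    intro p hp z
    rw [← Pool.Agent.Work.MP_6d7bb4.h65.EE_card z]
    refine hC z p hp (Pool.Agent.Work.MP_6d7bb4.h65.core Γ H p s z)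
      (Pool.Agent.Work.MP_6d7bb4.h65.core Γ H p t z)
      (Pool.Agent.Work.MP_6d7bb4.h65.core_spec hp hL s z)
      (Pool.Agent.Work.MP_6d7bb4.h65.core_spec hp hL t z) _ ?_
    intro u hu
    exact (Pool.Agent.Work.MP_6d7bb4.h65.EE_map hp hL hst z u).mp hu
  refine ⟨h1, ?_⟩
  obtain ⟨S, hS⟩ := Pool.Agent.Work.MP_6d7bb4.h65.main hF.1
    (Pool.Agent.Work.MP_6d7bb4.h65.RR s t l) hT hreg
  refine ⟨S, ?_⟩
  rintro H ⟨hD, ⟨g, hg, x, y, hxy, e1, e2, e3⟩, hC⟩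
  exact hS H hD.1 hD.2 ⟨g, hg, x, y, hxy, e1, e2, e3⟩ (h1 H hD ⟨g, hg, x, y, hxy, e1, e2⟩ hC)

theorem part2 (d s : ℕ) (hs : 1 ≤ s) : ∃ m : ℕ,
    ∀ (Ω : Type) [Fintype Ω] (F : Subgroup (Equiv.Perm Ω)), Fintype.card Ω = d →
    Semiprimitive F →
    ∀ (V : Type) (Γ : SimpleGraph V), Γ.IsTree → (∀ v : V, Nonempty (Γ.neighborSet v ≃ Ω)) →
      ∀ H : Subgroup (Γ ≃g Γ), DiscreteLocally Γ F H → Inversion Γ H →
        ∀ (x : V) (p : ℕ), p.Prime → ∀ P : Subgroup (Γ ≃g Γ), Core Γ H s p x P →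
          ∀ E : Subgroup (Γ ≃g Γ), (∀ z ∈ E, z ∈ P ∧ z ^ p = 1 ∧ ∀ g ∈ P, g * z = z * g) →
            Nat.card E ≤ m := by
  refine ⟨Pool.Agent.Work.MP_6d7bb4.h65.mb d s, ?_⟩
  rintro Ω _ F rfl hF V Γ hT hreg H ⟨h1, h2⟩ ⟨g, hg, u, w, huw, e1, e2⟩ x p hp P hP E hE
  have : Fact p.Prime := ⟨hp⟩
  have hL := Pool.Agent.Work.MP_6d7bb4.h65.loc_H hF.1 hF.2 hT.connected h1 h2 hg huw e1 e2
  obtain ⟨y, hxy⟩ : ∃ y, Γ.Adj x y := by
    obtain ⟨e⟩ := hreg u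
    obtain ⟨e'⟩ := hreg x
    exact ⟨(e'.symm (e ⟨w, huw⟩)).1, (e'.symm (e ⟨w, huw⟩)).2⟩
  have h3 := Pool.Agent.Work.MP_6d7bb4.h65.Zs_card (p := p) hL hs hxy
  have hcore := Pool.Agent.Work.MP_6d7bb4.h65.core_spec hp hL s x
  have hPc : P = Pool.Agent.Work.MP_6d7bb4.h65.core Γ H p s x :=
    le_antisymm (hcore.2 P hP.1) (hP.2 _ hcore.1)
  have hEH : E ≤ H := fun z hz => hP.1.1 (hE z hz).1
  have h4 : E.subgroupOf H ≤ Pool.Agent.Work.MP_6d7bb4.h65.Zs Γ p s x := by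
    intro z hz
    obtain ⟨h5, h6, h7⟩ := hE z.1 (Subgroup.mem_subgroupOf.mp hz)
    rw [hPc] at h5 h7
    obtain ⟨a, ha, haz⟩ := h5
    have h8 : a = z := Subtype.ext haz
    rw [h8] at ha
    refine ⟨ha, Subtype.ext h6, ?_⟩
    intro q hq
    exact Subtype.ext (h7 q.1 ⟨q, hq, rfl⟩)
  have hf : Finite (Pool.Agent.Work.MP_6d7bb4.h65.Zs Γ p s x : Subgroup H) :=
    hL.fin_le ((Pool.Agent.Work.MP_6d7bb4.h65.Zs_le x).trans
      (Pool.Agent.Work.MP_6d7bb4.h65.Nb_le_st s x))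
  calc Nat.card E = Nat.card (E.subgroupOf H) :=
        (Nat.card_congr (Subgroup.subgroupOfEquivOfLe hEH).toEquiv).symm
    _ ≤ Nat.card (Pool.Agent.Work.MP_6d7bb4.h65.Zs Γ p s x : Subgroup H) :=
        Subgroup.card_le_of_le h4
    _ ≤ _ := h3

theorem part3 (Ω : Type) [Fintype Ω] (F : Subgroup (Equiv.Perm Ω)) (hF : Semiprimitive F)
    (V : Type) (Γ : SimpleGraph V) (hT : Γ.IsTree)
    (hreg : ∀ v : V, Nonempty (Γ.neighborSet v ≃ Ω)) :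
    List.TFAE [
      FinitelyManyClasses Γ (fun H => DiscreteLocally Γ F H ∧ InvolutiveInversion Γ H),
      ∃ s : ℕ, 1 ≤ s ∧ ∀ H : Subgroup (Γ ≃g Γ), DiscreteLocally Γ F H →
        InvolutiveInversion Γ H → SmallCentres Γ H 0 s s,
      ∃ l s t : ℕ, 1 ≤ s ∧ s ≤ t ∧ ∀ H : Subgroup (Γ ≃g Γ), DiscreteLocally Γ F H →
        InvolutiveInversion Γ H → SmallCentres Γ H l s t,
      ∃ s l : ℕ, ∀ H : Subgroup (Γ ≃g Γ), DiscreteLocally Γ F H → InvolutiveInversion Γ H →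
        ∀ (x : V) (p : ℕ), p.Prime → ∀ P : Subgroup (Γ ≃g Γ), NormalP Γ H s p x P →
          derivedSeries P l = ⊥,
      ∃ s r : ℕ, ∀ H : Subgroup (Γ ≃g Γ), DiscreteLocally Γ F H → InvolutiveInversion Γ H →
        ∀ (x : V) (p : ℕ), p.Prime → ∀ P : Subgroup (Γ ≃g Γ), NormalP Γ H s p x P →
          ∀ E : Subgroup P, ElemAb p E → Nat.card E ≤ p ^ r] := by
  have hle : ∀ (H : Subgroup (Γ ≃g Γ)) (s : ℕ) (x : V) (p : ℕ) (P : Subgroup (Γ ≃g Γ)),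
      NormalP Γ H s p x P → P ≤ Pool.Agent.Work.MP_6d7bb4.h65.stab Γ H x := by
    rintro H s x p P ⟨h1, h2, h3, h4⟩ g hg
    refine ⟨h1 hg, h3 g hg x ?_⟩
    rw [SimpleGraph.dist_self]
    exact Nat.zero_le _
  have hfin : ∀ H : Subgroup (Γ ≃g Γ), DiscreteLocally Γ F H → ∀ x,
      Finite (Pool.Agent.Work.MP_6d7bb4.h65.stab Γ H x) := fun H hH x => (hH.1 x).to_subtype
  have hinv : ∀ H : Subgroup (Γ ≃g Γ), InvolutiveInversion Γ H → Inversion Γ H := by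
    rintro H ⟨g, hg, x, y, hxy, e1, e2, -⟩
    exact ⟨g, hg, x, y, hxy, e1, e2⟩
  tfae_have 1 → 2 := by
    rintro ⟨S, hS⟩
    obtain ⟨m, hm⟩ := Pool.Agent.Work.MP_6d7bb4.h65.card_bound hF.1 hT hreg S
    refine ⟨m + 1, by omega, ?_⟩
    intro H hD hI x p hp P Q hP hQ E hE
    have h1 := hm H hD.1 hD.2 hI (hS H ⟨hD, hI⟩) x
    have h2 := hle H _ x p Q hQ.1
    have hEQ : E ≤ Q := by
      intro z hz
      obtain ⟨a, -, rfl⟩ := (hE z hz).1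
      exact a.2
    have := hfin H hD x
    have h3 : Nat.card E ≤ m := (Subgroup.card_le_of_le (hEQ.trans h2)).trans h1
    have h4 : m < p ^ m := Nat.lt_pow_self hp.one_lt
    have h5 : p ^ m ≤ p ^ (2 * (m + 1) - 1) := Nat.pow_le_pow_right hp.pos (by omega)
    omega
  tfae_have 2 → 3 := by
    rintro ⟨s, hs, h⟩
    exact ⟨0, s, s, hs, le_refl s, h⟩
  tfae_have 3 → 1 := by
    rintro ⟨l, s, t, hs, hst, h⟩
    obtain ⟨R, -, hR⟩ := part1 l s t hs hst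
    obtain ⟨-, S, hS⟩ := hR Ω F hF V Γ hT hreg
    exact ⟨S, fun H hH => hS H ⟨hH.1, hH.2, h H hH.1 hH.2⟩⟩
  tfae_have 1 → 4 := by
    rintro ⟨S, hS⟩
    obtain ⟨m, hm⟩ := Pool.Agent.Work.MP_6d7bb4.h65.card_bound hF.1 hT hreg S
    refine ⟨0, m, ?_⟩
    intro H hD hI x p hp P hP
    have : Fact p.Prime := ⟨hp⟩
    have h1 := hm H hD.1 hD.2 hI (hS H ⟨hD, hI⟩) x
    have h2 := hle H _ x p P hP
    have := hfin H hD x
    have h3 : Nat.card P ≤ m := (Subgroup.card_le_of_le h2).trans h1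
    have : Finite P := Finite.of_injective _ (Subgroup.inclusion_injective h2)
    have hnil : Group.IsNilpotent P := hP.2.1.isNilpotent
    have h4 := Pool.Agent.Work.MP_6d7bb4.h65.derived_card (P := P) inferInstance
    rw [eq_bot_iff, ← h4]
    exact derivedSeries_antitone P h3
  tfae_have 1 → 5 := by
    rintro ⟨S, hS⟩
    obtain ⟨m, hm⟩ := Pool.Agent.Work.MP_6d7bb4.h65.card_bound hF.1 hT hreg S
    refine ⟨0, m, ?_⟩
    intro H hD hI x p hp P hP E _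
    have h1 := hm H hD.1 hD.2 hI (hS H ⟨hD, hI⟩) x
    have h2 := hle H _ x p P hP
    have := hfin H hD x
    have h3 : Nat.card P ≤ m := (Subgroup.card_le_of_le h2).trans h1
    have : Finite P := Finite.of_injective _ (Subgroup.inclusion_injective h2)
    have h4 : Nat.card E ≤ Nat.card P := Subgroup.card_le_card_group E
    have h5 : m < p ^ m := Nat.lt_pow_self hp.one_lt
    omega
  tfae_have 4 → 3 := by
    rintro ⟨s, l, h⟩
    refine ⟨l, s + 1, s + 1, by omega, le_refl _, ?_⟩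
    intro H hD hI x p hp P Q hP hQ E hE
    have h1 := h H hD hI x p hp Q ⟨hQ.1.1, hQ.1.2.1,
      fun g hg v hv => hQ.1.2.2.1 g hg v (hv.trans (Nat.le_succ s)), hQ.1.2.2.2⟩
    have h2 : E = ⊥ := by
      rw [eq_bot_iff]
      intro z hz
      obtain ⟨a, ha, rfl⟩ := (hE z hz).1
      have h3 : a ∈ derivedSeries Q l := ha
      rw [h1, Subgroup.mem_bot] at h3
      rw [h3]
      exact Subgroup.one_mem _
    rw [h2, Subgroup.card_bot]
    exact Nat.one_lt_pow (by omega) hp.one_lt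
  tfae_have 5 → 3 := by
    rintro ⟨s, r, h⟩
    refine ⟨0, s + r + 1, s + r + 1, by omega, le_refl _, ?_⟩
    intro H hD hI x p hp P Q hP hQ E hE
    have hPQ : P = Q := le_antisymm (hQ.2 P hP.1) (hP.2 Q hQ.1)
    have hEQ : E ≤ Q := by
      intro z hz
      obtain ⟨a, -, rfl⟩ := (hE z hz).1
      exact a.2
    have h1 := h H hD hI x p hp Q ⟨hQ.1.1, hQ.1.2.1,
      fun g hg v hv => hQ.1.2.2.1 g hg v (hv.trans (by omega)), hQ.1.2.2.2⟩ (E.subgroupOf Q) ⟨?_, ?_⟩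
    · rw [Nat.card_congr (Subgroup.subgroupOfEquivOfLe hEQ).toEquiv] at h1
      exact lt_of_le_of_lt h1 (Nat.pow_lt_pow_right hp.one_lt (by omega))
    · intro a ha
      exact Subtype.ext (hE a.1 (Subgroup.mem_subgroupOf.mp ha)).2.1
    · intro a ha b hb
      refine Subtype.ext ((hE b.1 (Subgroup.mem_subgroupOf.mp hb)).2.2 a.1 ?_)
      rw [hPQ]
      exact (hE a.1 (Subgroup.mem_subgroupOf.mp ha)).1
  tfae_finish

theorem part4 (s n : ℕ) : ∃ R : ℕ,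
    ∀ (Ω : Type) [Fintype Ω] (F : Subgroup (Equiv.Perm Ω)), Semiprimitive F →
    ∀ (V : Type) (Γ : SimpleGraph V), Γ.IsTree → (∀ v : V, Nonempty (Γ.neighborSet v ≃ Ω)) →
      (∀ H : Subgroup (Γ ≃g Γ), DiscreteLocally Γ F H → Inversion Γ H → Linear Γ H s n →
        Faithful Γ H R) ∧
      FinitelyManyClasses Γ (fun H => DiscreteLocally Γ F H ∧ InvolutiveInversion Γ H ∧
        Linear Γ H s n) := by
  refine ⟨Pool.Agent.Work.MP_6d7bb4.h65.RR (s + n + 1) (s + n + 1) n, ?_⟩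
  intro Ω _ F hF V Γ hT hreg
  have h1 : ∀ H : Subgroup (Γ ≃g Γ), DiscreteLocally Γ F H → Inversion Γ H →
      Linear Γ H s n → Faithful Γ H (Pool.Agent.Work.MP_6d7bb4.h65.RR (s + n + 1) (s + n + 1) n) := by
    rintro H ⟨h1, h2⟩ ⟨g, hg, x, y, hxy, e1, e2⟩ hC o k hk hk1
    have hL := Pool.Agent.Work.MP_6d7bb4.h65.loc_H hF.1 hF.2 hT.connected h1 h2 hg hxy e1 e2
    refine Pool.Agent.Work.MP_6d7bb4.h65.radius hL hxy (by omega) (le_refl _) ?_ o hk hk1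
    intro p hp z
    have h3 := Pool.Agent.Work.MP_6d7bb4.h65.EE_small hp hL (s := s) (l := n) (r := n)
      (t := s + n + 1) (by omega) z (fun P hP E hE hE1 =>
        Pool.Agent.Work.MP_6d7bb4.h65.lin_small h1 (fun x => by
          obtain ⟨B, hB, K, hK, ρ, hρ⟩ := hC x
          have h3 : B = Pool.Agent.Work.MP_6d7bb4.h65.ballFix Γ H s x := Subgroup.ext hB
          subst h3
          exact ⟨K, hK, ρ, hρ⟩) z hp P hP E hE hE1.1 hE1.2)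
    exact lt_of_le_of_lt h3 (Nat.pow_lt_pow_right hp.one_lt (by omega))
  refine ⟨h1, ?_⟩
  obtain ⟨S, hS⟩ := Pool.Agent.Work.MP_6d7bb4.h65.main hF.1
    (Pool.Agent.Work.MP_6d7bb4.h65.RR (s + n + 1) (s + n + 1) n) hT hreg
  refine ⟨S, ?_⟩
  rintro H ⟨hD, ⟨g, hg, x, y, hxy, e1, e2, e3⟩, hC⟩
  exact hS H hD.1 hD.2 ⟨g, hg, x, y, hxy, e1, e2, e3⟩ (h1 H hD ⟨g, hg, x, y, hxy, e1, e2⟩ hC)

end Pool.Agent.Work.MP_6d7bb4_h65.Growth
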