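import Pool.Agent.Work.MP_6d7bb4_h65.Fin
import Pool.Agent.Work.MP_6d7bb4_h65.Bnd2

/-! # MP_6d7bb4: the finiteness theorem (helper65) -/

set_option autoImplicit false
set_option linter.unusedSectionVars false

namespace Pool.Agent.Work.MP_6d7bb4.h65

open MulAction Pool.Agent.Work.MP_6d7bb4.helper94

section main
variable {V : Type*} {Γ : SimpleGraph V} {Ω : Type*}

/-- transitivity on arcs from one inversion -/
theorem arcs [Fintype Ω] {F : Subgroup (Equiv.Perm Ω)} {H : Subgroup (Γ ≃g Γ)}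
    (hF1 : ∀ a b : Ω, ∃ σ ∈ F, σ a = b) (hc : Γ.Connected)
    (h2 : ∀ x : V, ∃ e : Γ.neighborSet x ≃ Ω, LA Γ H F x e)
    {g : Γ ≃g Γ} (hg : g ∈ H) {x y : V} (hxy : Γ.Adj x y) (e1 : g x = y) (e2 : g y = x)
    {x' y' : V} (hxy' : Γ.Adj x' y') : ∃ k ∈ H, k x = x' ∧ k y = y' :=
  arc_of_inv hc (fun _ _ _ hy hy' => loc_tr hF1 h2 hy hy') hxy hg e1 e2 x' y' hxy'

/-- the groups acting faithfully on balls of radius `R` fall into finitely many classes -/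
theorem main [Fintype Ω] {F : Subgroup (Equiv.Perm Ω)}
    (hF1 : ∀ a b : Ω, ∃ σ ∈ F, σ a = b) (R : ℕ)
    (hT : Γ.IsTree) (hreg : ∀ v : V, Nonempty (Γ.neighborSet v ≃ Ω)) :
    ∃ S : Finset (Subgroup (Γ ≃g Γ)),
        ∀ H : Subgroup (Γ ≃g Γ),
          (∀ v : V, {g : Γ ≃g Γ | g ∈ H ∧ g v = v}.Finite) →
          (∀ x : V, ∃ e : Γ.neighborSet x ≃ Ω, LA Γ H F x e) →
          (∃ g ∈ H, ∃ x y : V, Γ.Adj x y ∧ g x = y ∧ g y = x ∧ g * g = 1) →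
          (∀ x : V, ∀ k ∈ H, (∀ v, Γ.dist x v ≤ R → k v = v) → k = 1) →
          ∃ K ∈ S, ∃ a : Γ ≃g Γ, H = K.map (MulAut.conj a).toMonoidHom := by
  have hc := hT.connected
  obtain ⟨o⟩ := hc.nonempty
  have hnf : ∀ v, Finite {w // Γ.Adj v w} := by
    intro v
    obtain ⟨e⟩ := hreg v
    exact Finite.of_equiv Ω e.symm
  suffices key : ∃ S : Finset (Subgroup (Γ ≃g Γ)), ∀ H : Subgroup (Γ ≃g Γ),
      ((∀ v : V, {g : Γ ≃g Γ | g ∈ H ∧ g v = v}.Finite) ∧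
      (∀ x : V, ∃ e : Γ.neighborSet x ≃ Ω, LA Γ H F x e) ∧
      (∃ g ∈ H, ∃ x y : V, Γ.Adj x y ∧ g x = y ∧ g y = x ∧ g * g = 1) ∧
      (∀ x : V, ∀ k ∈ H, (∀ v, Γ.dist x v ≤ R → k v = v) → k = 1)) →
      ∃ K ∈ S, ∃ a : Γ ≃g Γ, H = K.map (MulAut.conj a).toMonoidHom by
    obtain ⟨S, hS⟩ := key
    exact ⟨S, fun H h1 h2 h3 h4 => hS H ⟨h1, h2, h3, h4⟩⟩
  refine Tr.classes hT hnf o R
    (fun H => (∀ v : V, {g : Γ ≃g Γ | g ∈ H ∧ g v = v}.Finite) ∧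
      (∀ x : V, ∃ e : Γ.neighborSet x ≃ Ω, LA Γ H F x e) ∧
      (∃ g ∈ H, ∃ x y : V, Γ.Adj x y ∧ g x = y ∧ g y = x ∧ g * g = 1) ∧
      (∀ x : V, ∀ k ∈ H, (∀ v, Γ.dist x v ≤ R → k v = v) → k = 1)) ?_ ?_ ?_
  · rintro H ⟨h1, h2, ⟨g, hg, x, y, hxy, e1, e2, e3⟩, hC⟩ a
    refine ⟨fin_conj a h1, fun x => ?_, ⟨a * g * a⁻¹, mem_conj.mpr ⟨g, hg, rfl⟩, a x, a y,
      Tr.adj_iso a hxy, ?_, ?_, ?_⟩, ?_⟩
    · obtain ⟨e, he⟩ := h2 (a⁻¹ x)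
      exact ⟨_, LA_conj a x he⟩
    · rw [Tr.mul_app, Tr.mul_app, Tr.inv_app, e1]
    · rw [Tr.mul_app, Tr.mul_app, Tr.inv_app, e2]
    · have h4 : a * g * a⁻¹ * (a * g * a⁻¹) = a * (g * g) * a⁻¹ := by group
      rw [h4, e3]
      group
    · intro z k hk hkz
      obtain ⟨k', hk', rfl⟩ := mem_conj.mp hk
      have h4 : k' = 1 := by
        refine hC (a⁻¹ z) k' hk' (fun v hv => ?_)
        have h5 := hkz (a v) (by
          have e4 := Tr.dist_iso a⁻¹ hc z (a v)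
          rw [Tr.inv_app] at e4
          rw [← e4]
          exact hv)
        rw [Tr.mul_app, Tr.mul_app, Tr.inv_app] at h5
        have h6 := congrArg (a⁻¹ : Γ ≃g Γ) h5
        rwa [Tr.inv_app, Tr.inv_app] at h6
      rw [h4]
      group
  · rintro H ⟨h1, h2, ⟨g, hg, x, y, hxy, e1, e2, e3⟩, hC⟩ z hz
    obtain ⟨k, hk, e4, e5⟩ := arcs hF1 hc h2 hg hxy e1 e2 hz
    refine ⟨k * g * k⁻¹, H.mul_mem (H.mul_mem hk hg) (H.inv_mem hk), ?_, ?_⟩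
    · rw [Tr.mul_app, Tr.mul_app, ← e4, Tr.inv_app, e1, e5]
    · have h4 : k * g * k⁻¹ * (k * g * k⁻¹) = k * (g * g) * k⁻¹ := by group
      rw [h4, e3]
      group
  · rintro H ⟨h1, h2, h3, hC⟩ k hk hk1
    exact hC o k hk hk1

end main

end Pool.Agent.Work.MP_6d7bb4.h65
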