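import Pool.Agent.Work.MP_6d7bb4_h65.Der

/-! # MP_6d7bb4: bounded derived length (helper65) -/

set_option autoImplicit false
set_option linter.unusedSectionVars false

namespace Pool.Agent.Work.MP_6d7bb4.h65

open MulAction Pool.Agent.Work.MP_6d7bb4.helper94
open scoped commutatorElement

/-- the radius needed in the claim for the derived length `l` -/
def CC : ℕ → ℕ → ℕ
  | 0, s => s + 1
  | l + 1, s => CC l s + CC l (s + CC l s + 1)

/-- the radius obtained -/
def cc : ℕ → ℕ → ℕ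
  | 0, s => s
  | l + 1, s => cc l (s + CC l s + 1)

theorem CC_mono (l : ℕ) : ∀ {s t : ℕ}, s ≤ t → CC l s ≤ CC l t := by
  induction l with
  | zero =>
    intro s t h
    show s + 1 ≤ t + 1
    omega
  | succ l ih =>
    intro s t h
    show CC l s + CC l (s + CC l s + 1) ≤ CC l t + CC l (t + CC l t + 1)
    have h1 := ih h
    have h2 := ih (s := s + CC l s + 1) (t := t + CC l t + 1) (by omega)
    omega

theorem cc_mono (l : ℕ) : ∀ {s t : ℕ}, s ≤ t → cc l s ≤ cc l t := by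
  induction l with
  | zero =>
    intro s t h
    exact h
  | succ l ih =>
    intro s t h
    show cc l (s + CC l s + 1) ≤ cc l (t + CC l t + 1)
    have h1 := CC_mono l h
    exact ih (by omega)

theorem cc_succ_le (l s : ℕ) : cc l s ≤ cc (l + 1) s := by
  show cc l s ≤ cc l (s + CC l s + 1)
  exact cc_mono l (by omega)

theorem CC_succ_le (l s : ℕ) : CC l s ≤ CC (l + 1) s := by
  show CC l s ≤ CC l s + CC l (s + CC l s + 1)
  omega

section sol
variable {V G : Type*} [Group G] [MulAction G V] {Γ : SimpleGraph V} {d p : ℕ} [Fact p.Prime]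

/-- the fixed points of `A` in the ball of radius `R` around `w` are invariant under these elements -/
def Sfix (h : Loc G Γ d) (A : Subgroup G) (R : ℕ) (w : V) : Subgroup G where
  carrier := {g | g • w = w ∧ ∀ x, Γ.dist w x ≤ R →
    ((∀ a ∈ A, a • x = x) ↔ ∀ a ∈ A, a • (g • x) = g • x)}
  one_mem' := ⟨one_smul _ _, fun x _ => by rw [one_smul]⟩
  mul_mem' := by
    rintro g g' ⟨h1, h2⟩ ⟨h3, h4⟩
    refine ⟨by rw [mul_smul, h3, h1], fun x hx => ?_⟩
    rw [h4 x hx, mul_smul]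
    refine h2 (g' • x) ?_
    have h5 := dist_smul h g' w x
    rw [h3] at h5
    rw [h5]
    exact hx
  inv_mem' := by
    rintro g ⟨h1, h2⟩
    have h3 : g⁻¹ • w = w := by rw [inv_smul_eq_iff, h1]
    refine ⟨h3, fun x hx => ?_⟩
    have h5 := dist_smul h g⁻¹ w x
    rw [h3] at h5
    have h6 := h2 (g⁻¹ • x) (by rw [h5]; exact hx)
    rw [smul_inv_smul] at h6
    exact h6.symm

theorem mem_Sfix {h : Loc G Γ d} {A : Subgroup G} {R : ℕ} {w : V} {g : G} :
    g ∈ Sfix h A R w ↔ g • w = w ∧ ∀ x, Γ.dist w x ≤ R →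
    ((∀ a ∈ A, a • x = x) ↔ ∀ a ∈ A, a • (g • x) = g • x) := Iff.rfl

/-- elements which normalise `A` -/
theorem Sfix_of_nm (h : Loc G Γ d) {A B0 : Subgroup G} {R : ℕ} {w : V}
    (hB : B0 ≤ stabilizer G w) (hn : Nm B0 A) : B0 ≤ Sfix h A R w := by
  intro g hg
  refine ⟨hB hg, fun x _ => ⟨fun hx a ha => ?_, fun hx a ha => ?_⟩⟩
  · have h1 := hn g⁻¹ (B0.inv_mem hg) a ha
    rw [inv_inv] at h1
    have h2 := hx _ h1
    rw [mul_smul, mul_smul, inv_smul_eq_iff] at h2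
    exact h2
  · have h1 := hn g hg a ha
    have h2 := hx _ h1
    rw [mul_smul, mul_smul, inv_smul_smul] at h2
    exact smul_left_cancel g h2

/-- elements which commute with `A` modulo the stabiliser of a ball -/
theorem Sfix_of_comm (h : Loc G Γ d) {A L : Subgroup G} {R k κ : ℕ} {v w : V}
    (hk : κ + R ≤ k) (hvw : Γ.dist v w ≤ κ) (hL : L ≤ stabilizer G w)
    (hc : ∀ a ∈ A, ∀ t ∈ L, a⁻¹ * t⁻¹ * a * t ∈ (Wb Γ k v : Subgroup G)) :
    L ≤ Sfix h A R w := by
  have key : ∀ t ∈ L, ∀ x, Γ.dist w x ≤ R → (∀ a ∈ A, a • x = x) →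
      ∀ a ∈ A, a • (t • x) = t • x := by
    intro t ht x hx hfx a ha
    have h1 : (a⁻¹ * t⁻¹ * a * t) • x = x := by
      refine hc a ha t ht x ?_
      have := h.conn.dist_triangle (u := v) (v := w) (w := x)
      omega
    have h2 : (t⁻¹ * a * t) • x = x := by
      have e : t⁻¹ * a * t = a * (a⁻¹ * t⁻¹ * a * t) := by group
      rw [e, mul_smul, h1, hfx a ha]
    rw [mul_smul, mul_smul, inv_smul_eq_iff] at h2
    exact h2
  intro t ht
  refine ⟨hL ht, fun x hx => ⟨fun hfx => key t ht x hx hfx, fun hfx => ?_⟩⟩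
  have h5 := dist_smul h t w x
  rw [mem_stabilizer_iff.mp (hL ht)] at h5
  have h6 := key t⁻¹ (L.inv_mem ht) (t • x) (by rw [h5]; exact hx) hfx
  rw [inv_smul_smul] at h6
  exact h6

/-- a group whose fixed points near `w` and near `u` are invariant fixes large balls -/
theorem fix_balls (h : Loc G Γ d) {A : Subgroup G} {R : ℕ} {w u : V} (hwu : Γ.Adj w u)
    (hA1 : A ≤ stabilizer G w) (hA2 : A ≤ stabilizer G u)
    (h1 : stabilizer G w ≤ Sfix h A R w) (h2 : stabilizer G u ≤ Sfix h A R u) :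
    ∀ j, j ≤ R → A ≤ Wb Γ j w ∧ A ≤ Wb Γ j u := by
  have step : ∀ {w u : V}, Γ.Adj w u → stabilizer G w ≤ Sfix h A R w → A ≤ stabilizer G w →
      ∀ j, j + 1 ≤ R → A ≤ Wb Γ j u → A ≤ Wb Γ (j + 1) w := by
    intro w u hwu h1 hA1 j hj hAu a ha x hx
    by_cases hxw : w = x
    · rw [← hxw]
      exact hA1 ha
    · obtain ⟨y, hy, hd⟩ := Tr.closer_exists h.conn hxw
      obtain ⟨g, hg1, hg2⟩ := h.arc w u w y hwu hy
      have h3 : Γ.dist u (g⁻¹ • x) ≤ j := by
        rw [← dist_smul h g, hg2, smul_inv_smul]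
        omega
      have h4 : Γ.dist w (g⁻¹ • x) ≤ R := by
        have h5 := dist_smul h g w (g⁻¹ • x)
        rw [hg1, smul_inv_smul] at h5
        omega
      have h5 := (h1 (show g ∈ stabilizer G w from hg1)).2 (g⁻¹ • x) h4
      rw [smul_inv_smul] at h5
      exact h5.mp (fun b hb => hAu hb _ h3) a ha
  intro j
  induction j with
  | zero =>
    intro _
    constructor
    · intro a ha v hv
      have : w = v := (h.conn.dist_eq_zero_iff).mp (by omega)
      rw [← this]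
      exact hA1 ha
    · intro a ha v hv
      have : u = v := (h.conn.dist_eq_zero_iff).mp (by omega)
      rw [← this]
      exact hA2 ha
  | succ j ih =>
    intro hj
    obtain ⟨h3, h4⟩ := ih (by omega)
    exact ⟨step hwu h1 hA1 j hj h4, step hwu.symm h2 hA2 j hj h3⟩

/-- the groups whose derived length is studied -/
abbrev LL (Γ : SimpleGraph V) (p l s : ℕ) (x : V) : Subgroup G := Ds l (Nb Γ p s x)

theorem LL_cj (h : Loc G Γ d) (l s : ℕ) (g : G) (x : V) :
    (LL Γ p l s (g • x) : Subgroup G) = cj g (LL Γ p l s x) := by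
  show Ds l (Nb Γ p s (g • x)) = cj g (Ds l (Nb Γ p s x))
  rw [Nb_cj h, Ds_cj]

/-- the group generated by the `L_v` at distance `κ` -/
def TT (Γ : SimpleGraph V) (p l s κ : ℕ) (w : V) : Subgroup G :=
  ⨆ v : {v // Γ.dist v w = κ}, LL Γ p l s v.1

theorem LL_le_TT {l s κ : ℕ} {v w : V} (hv : Γ.dist v w = κ) :
    (LL Γ p l s v : Subgroup G) ≤ TT Γ p l s κ w :=
  le_iSup (fun v : {v // Γ.dist v w = κ} => (LL Γ p l s v.1 : Subgroup G)) ⟨v, hv⟩

theorem TT_cj (h : Loc G Γ d) (l s κ : ℕ) (g : G) (w : V) :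
    (TT Γ p l s κ (g • w) : Subgroup G) = cj g (TT Γ p l s κ w) := by
  have key : ∀ (g : G) (w : V), (TT Γ p l s κ (g • w) : Subgroup G) ≤ cj g (TT Γ p l s κ w) := by
    intro g w
    refine iSup_le (fun v => ?_)
    have h1 : Γ.dist (g⁻¹ • v.1) w = κ := by
      rw [← dist_smul h g, smul_inv_smul]
      exact v.2
    have h2 : (LL Γ p l s v.1 : Subgroup G) = cj g (LL Γ p l s (g⁻¹ • v.1)) := by
      rw [← LL_cj h, smul_inv_smul]
    rw [h2]
    exact cj_mono g (LL_le_TT h1)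
  refine le_antisymm (key g w) ?_
  have h1 := cj_mono g (key g⁻¹ (g • w))
  rw [inv_smul_smul, cj_inv_cj] at h1
  exact h1

/-- the intersection of the `L_v` near the edge `w`, `u` -/
def AI (Γ : SimpleGraph V) (p l s κ : ℕ) (w u : V) : Subgroup G :=
  ⨅ v : {v // Γ.dist v w ≤ κ ∨ Γ.dist v u ≤ κ}, LL Γ p l s v.1

theorem mem_AI {l s κ : ℕ} {w u : V} {a : G} : a ∈ (AI Γ p l s κ w u : Subgroup G) ↔
    ∀ v, Γ.dist v w ≤ κ ∨ Γ.dist v u ≤ κ → a ∈ (LL Γ p l s v : Subgroup G) := by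
  unfold AI
  rw [Subgroup.mem_iInf]
  exact ⟨fun h v hv => h ⟨v, hv⟩, fun h v => h v.1 v.2⟩

theorem AI_comm (l s κ : ℕ) (w u : V) :
    (AI Γ p l s κ w u : Subgroup G) = AI Γ p l s κ u w := by
  ext a
  rw [mem_AI, mem_AI]
  exact forall_congr' (fun v => by rw [or_comm])

theorem nm_AI (h : Loc G Γ d) (l s κ : ℕ) (w u : V) :
    Nm (B w u) (AI Γ p l s κ w u : Subgroup G) := by
  intro b hb a ha
  rw [mem_AI] at ha ⊢
  intro v hv
  have h1 : b⁻¹ • w = w := by rw [inv_smul_eq_iff, hb.1]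
  have h2 : b⁻¹ • u = u := by rw [inv_smul_eq_iff, hb.2]
  have h3 := ha (b⁻¹ • v) (by
    have e1 := dist_smul h b⁻¹ v w
    have e2 := dist_smul h b⁻¹ v u
    rw [h1] at e1
    rw [h2] at e2
    rw [e1, e2]
    exact hv)
  have h4 := conj_mem_cj (g := b) h3
  rw [← LL_cj h, smul_inv_smul] at h4
  exact h4

/-- THE DROP LEMMA -/
theorem drop (h : Loc G Γ d) {l s k κ : ℕ} (hs : 1 ≤ s) (hκ1 : 1 ≤ κ)
    (hk : ∀ x, (LL Γ p (l + 1) s x : Subgroup G) ≤ Wb Γ k x)
    (hκ : ∀ x, (LL Γ p l s x : Subgroup G) ≤ Wb Γ κ x)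
    (hne : ∃ x, ¬ (LL Γ p l s x : Subgroup G) ≤ Wb Γ (κ + 1) x) (hκk : κ ≤ k) (w : V) :
    (LL Γ p l (s + κ + 1) w : Subgroup G) ≤ Wb Γ (k - κ) w := by
  have hTs : ∀ w, (TT Γ p l s κ w : Subgroup G) ≤ stabilizer G w := by
    intro w
    refine iSup_le (fun v => ?_)
    intro g hg
    exact hκ v.1 hg w (by rw [v.2])
  have hTn : ∀ w, Nm (stabilizer G w) (TT Γ p l s κ w : Subgroup G) := fun w =>
    nm_of_equiv (fun g x => TT_cj h l s κ g x) w
  -- transitivity
  obtain ⟨x0, hx0⟩ := hne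
  obtain ⟨g0, hg0, hg0'⟩ := SetLike.not_le_iff_exists.mp hx0
  have h1 : ∃ u0, Γ.dist x0 u0 ≤ κ + 1 ∧ g0 • u0 ≠ u0 := by
    by_contra hcon
    push Not at hcon
    exact hg0' (fun v hv => hcon v hv)
  obtain ⟨u0, hu0, hgu0⟩ := h1
  have hd0 : Γ.dist x0 u0 = κ + 1 := by
    by_contra hcon
    exact hgu0 (hκ x0 hg0 u0 (by omega))
  have hne0 : u0 ≠ x0 := by
    rintro rfl
    rw [SimpleGraph.dist_self] at hd0
    omega
  obtain ⟨w0, hw0, hdw0⟩ := Tr.closer_exists h.conn hne0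
  rw [SimpleGraph.dist_comm (u := u0)] at hdw0
  have hd1 : Γ.dist x0 w0 = κ := by
    rw [SimpleGraph.dist_comm]
    omega
  have hne1 : w0 ≠ x0 := by
    rintro rfl
    rw [SimpleGraph.dist_self] at hd1
    omega
  obtain ⟨y0, hy0, hdy0⟩ := Tr.closer_exists h.conn hne1
  have hg0T : g0 ∈ (TT Γ p l s κ w0 : Subgroup G) := LL_le_TT hd1 hg0
  have htr0 : ∀ y y', Γ.Adj w0 y → Γ.Adj w0 y' →
      ∃ n ∈ (TT Γ p l s κ w0 : Subgroup G), n • y = y' := by
    rcases h.sp w0 _ (hTs w0) (hTn w0) with h2 | h2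
    · exact h2
    · exfalso
      have h3 : g0 • y0 = y0 := by
        refine hκ x0 hg0 y0 ?_
        rw [SimpleGraph.dist_comm] at hd1
        rw [SimpleGraph.dist_comm]
        omega
      exact hgu0 ((h2 g0 hg0T y0 hy0 h3).2 u0 hw0.symm)
  have htr : ∀ w y y', Γ.Adj w y → Γ.Adj w y' →
      ∃ n ∈ (TT Γ p l s κ w : Subgroup G), n • y = y' := by
    intro w y y' hy hy'
    obtain ⟨g, rfl⟩ := vtr h hw0.symm w
    have h2 : Γ.Adj w0 (g⁻¹ • y) := by
      rw [← h.adj_iff g, smul_inv_smul]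
      exact hy
    have h3 : Γ.Adj w0 (g⁻¹ • y') := by
      rw [← h.adj_iff g, smul_inv_smul]
      exact hy'
    obtain ⟨n, hn, hn'⟩ := htr0 _ _ h2 h3
    refine ⟨g * n * g⁻¹, ?_, ?_⟩
    · rw [TT_cj h]
      exact conj_mem_cj hn
    · rw [mul_smul, mul_smul, hn', smul_inv_smul]
  -- the fixed points of `A` are invariant
  have hAL : ∀ {w u v : V} {a : G}, a ∈ (AI Γ p l s κ w u : Subgroup G) → Γ.dist v w ≤ κ →
      a ∈ (LL Γ p l s v : Subgroup G) := fun ha hv => mem_AI.mp ha _ (Or.inl hv)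
  have hinv : ∀ w u, Γ.Adj w u →
      stabilizer G w ≤ Sfix h (AI Γ p l s κ w u : Subgroup G) (k - κ) w := by
    intro w u hwu g hg
    obtain ⟨n, hn, b, hb, rfl⟩ := factor (hTs w) (htr w) h hwu hg
    refine mul_mem ?_ ?_
    · have h2 : (TT Γ p l s κ w : Subgroup G) ≤
          Sfix h (AI Γ p l s κ w u : Subgroup G) (k - κ) w := by
        refine iSup_le (fun v => ?_)
        refine Sfix_of_comm h (k := k) (κ := κ) (v := v.1) (by omega) (by rw [v.2])
          (fun t ht => hκ v.1 ht w (by rw [v.2])) ?_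
        intro a ha t ht
        exact hk v.1 (Ds_comm (hAL ha (by rw [v.2])) ht)
      exact h2 hn
    · exact Sfix_of_nm h (B_le w u) (nm_AI h l s κ w u) hb
  obtain ⟨g, rfl⟩ := vtr h hw0.symm w
  have hadj : Γ.Adj (g • w0) (g • u0) := h.adj g _ _ hw0.symm
  have hA1 : ∀ w u, (AI Γ p l s κ w u : Subgroup G) ≤ stabilizer G w := by
    intro w u a ha
    exact (Ds_le l _).trans (Nb_le_st s w) (hAL ha (by rw [SimpleGraph.dist_self]; omega))
  have hfin := fix_balls h hadj (hA1 (g • w0) (g • u0)) (by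
    rw [AI_comm]
    exact hA1 _ _) (hinv _ _ hadj) (by
    rw [AI_comm]
    exact hinv _ _ hadj.symm) (k - κ) (le_refl _)
  refine le_trans ?_ hfin.1
  intro a ha
  rw [mem_AI]
  intro v hv
  refine Ds_mono l ?_ ha
  have h2 : Γ.dist (g • w0) v ≤ κ + 1 := by
    rcases hv with hv | hv
    · rw [SimpleGraph.dist_comm]
      omega
    · have h3 := h.conn.dist_triangle (u := g • w0) (v := g • u0) (w := v)
      rw [SimpleGraph.dist_eq_one_iff_adj.mpr hadj] at h3
      rw [SimpleGraph.dist_comm] at hv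
      omega
  exact Nb_dist h hs (κ + 1) h2

/-- a group which is normal at both ends of an edge -/
theorem Nb_bot (h : Loc G Γ d) {s : ℕ} (hs : 1 ≤ s)
    (hk : ∀ x, (Nb Γ p s x : Subgroup G) ≤ Wb Γ (s + 1) x) {x y : V} (hxy : Γ.Adj x y) :
    (Nb Γ p s x : Subgroup G) = ⊥ := by
  have h1 : ∀ {x y : V}, Γ.Adj x y → (Nb Γ p s x : Subgroup G) ≤ Nb Γ p s y := by
    intro x y hxy
    refine le_trans ?_ (Nb_adj h hs hxy)
    exact le_Nb (hk x) ((nm_Nb h s x).mono (Wb_le_st _ x)) (Nb_isP h s x)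
  obtain ⟨σ, h2, h3⟩ := h.inv hxy
  refine P1 h hxy (Nb_le_st s x) (nm_Nb h s x) h2 h3 ?_
  intro n hn
  have h4 := conj_mem_cj (g := σ) hn
  rw [← Nb_cj h, h2] at h4
  exact h1 hxy.symm h4

/-- THE THEOREM ON DERIVED LENGTH -/
theorem sol_main (h : Loc G Γ d) {x0 y0 : V} (hxy : Γ.Adj x0 y0) (l : ℕ) :
    ∀ s k, 1 ≤ s → CC l s ≤ k → (∀ x, (LL Γ p l s x : Subgroup G) ≤ Wb Γ k x) →
      ∀ x, (Nb Γ p (cc l s) x : Subgroup G) = ⊥ := by
  have hnb : ∀ x, ∃ y, Γ.Adj x y := by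
    intro x
    obtain ⟨g, rfl⟩ := vtr h hxy x
    exact ⟨g • y0, h.adj g _ _ hxy⟩
  induction l with
  | zero =>
    intro s k hs hk hL x
    obtain ⟨y, hy⟩ := hnb x
    refine Nb_bot h hs (fun x => ?_) hy
    exact (hL x).trans (Wb_anti hk x)
  | succ l ih =>
    intro s k hs hk hL x
    have hk' : CC l s + CC l (s + CC l s + 1) ≤ k := hk
    by_cases h0 : ∀ x, (LL Γ p l s x : Subgroup G) ≤ Wb Γ (CC l s) x
    · have h1 := ih s (CC l s) hs (le_refl _) h0 x
      rw [eq_bot_iff, ← h1]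
      exact Nb_anti h (cc_succ_le l s) x
    · classical
      have hex : ∃ j, ¬ ∀ x, (LL Γ p l s x : Subgroup G) ≤ Wb Γ j x := ⟨_, h0⟩
      obtain ⟨j, hj⟩ : ∃ j, j = Nat.find hex := ⟨_, rfl⟩
      have h1 : ¬ ∀ x, (LL Γ p l s x : Subgroup G) ≤ Wb Γ j x := by
        rw [hj]
        exact Nat.find_spec hex
      have h2 : ∀ i, i < j → ∀ x, (LL Γ p l s x : Subgroup G) ≤ Wb Γ i x := by
        intro i hi
        by_contra hcon
        exact Nat.find_min hex (hj ▸ hi) hcon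
      have h3 : j ≤ CC l s := by
        rw [hj]
        exact Nat.find_min' hex h0
      have h4 : s < j := by
        by_contra hcon
        apply h1
        intro x
        exact ((Ds_le l _).trans (Nb_le s x)).trans (Wb_anti (by omega) x)
      obtain ⟨κ, rfl⟩ : ∃ κ, j = κ + 1 := ⟨j - 1, by omega⟩
      have h5 := CC_mono l (s := s + κ + 1) (t := s + CC l s + 1) (by omega)
      have h6 := drop h hs (by omega) hL (h2 κ (Nat.lt_succ_self κ)) (by
        push Not at h1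
        exact h1) (by omega)
      have h7 := ih (s + κ + 1) (k - κ) (by omega) (by omega) h6 x
      rw [eq_bot_iff, ← h7]
      refine Nb_anti h ?_ x
      show cc l (s + κ + 1) ≤ cc l (s + CC l s + 1)
      exact cc_mono l (by omega)

end sol

end Pool.Agent.Work.MP_6d7bb4.h65
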